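import Mathlib
import Pool.Agent.Work.MP_56b8f5_nt.UC.Defs
import Pool.Agent.Work.MP_a8fbd7_nt.OX.ID.Linnik

/-!
# MP_a8fbd7_nt, block OX: interface definitions (version 2, two roughness levels)

Goal: there is a set `E` of naturals with `#(E ∩ [1,N]) ≤ C N^(39/200)` such that `A(n) ~ n/(2 log n)` and
`B(n) ~ n/(2 log n)` for `n → ∞`, `n ∉ E`.

`T` is the length of the block of `n`, the points are `x = n²`, `T² ≤ x ≤ 4T²`, the intervals have length `x/T`.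
-/

set_option autoImplicit false

open MeasureTheory Set Filter Topology

noncomputable section

namespace Pool.Agent.Work.MP_a8fbd7_nt.OX

open Pool.Agent.Work.MP_56b8f5_nt.UC (IsWt Bl Dp Om psi eta Sep)
open Pool.Agent.Work.MP_a8fbd7_nt.OX.ID (Rough roughOne)

/-- exponent of the cell theorems, `.194` -/
def r0 : ℝ := 97 / 500

/-- exponent after the union over the boxes, `.1945 < 39/200` -/
def r1 : ℝ := 389 / 2000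

/-- general block of length `N`: coefficients of modulus `≤ 1`, supported in `[N/2, 2N]` -/
structure IsBlk (a : ℕ → ℂ) (N : ℝ) : Prop where
  bd : ∀ n, ‖a n‖ ≤ 1
  supp : ∀ n, a n ≠ 0 → N / 2 ≤ n ∧ (n : ℝ) ≤ 2 * N

/-- the value `∑ a_n n^{-it}` of a general block of length `N` -/
def PB (a : ℕ → ℂ) (N t : ℝ) : ℂ := Dp ⌊2 * N⌋₊ a t

/-- `S` is a set of positive reals whose logarithms are `1/T`-separated -/
def LSep (S : Finset ℝ) (T : ℝ) : Prop :=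
  (∀ x ∈ S, 0 < x) ∧ ∀ x ∈ S, ∀ y ∈ S, x ≠ y → 1 ≤ T * |Real.log x - Real.log y|

/-- `G(t) = ∑_{x ∈ S} c_x x^{it}` -/
def GS (S : Finset ℝ) (c : ℝ → ℂ) (t : ℝ) : ℂ := ∑ x ∈ S, c x * (x : ℂ) ^ (t * Complex.I)

/-- every `1/T`-separated set of points `x ∈ [T², 4T²]` with the property `P` has at most `B` elements -/
def PackLe (T : ℝ) (P : ℝ → Prop) (B : ℝ) : Prop :=
  ∀ S : Finset ℝ, LSep S T → (∀ x ∈ S, T ^ 2 ≤ x ∧ x ≤ 4 * T ^ 2 ∧ P x) → (S.card : ℝ) ≤ B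

open Classical in
/-- **CELL THEOREM B** (general blocks, total length `T^(2±ε)`, losses of powers of `log T`).  All blocks have length at most `T^(1/2+κ)`, the
blocks of length `≤ T^(41/100)` have total length at least `T^β`, `κ` small in terms of `β`, and every block saves a power of `log T` on
`[T', 2T']`.  If the points `x ∈ S` (at most `T^(1/3)` of them) resonate with the product up to a power of `log T`, then there are at most `C T^r0` of them. -/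
def StCellB : Prop := ∀ β : ℝ, 0 < β → β ≤ 1 / 20 → ∃ κ : ℝ, 0 < κ ∧ κ ≤ β / 100 ∧ ∀ η : ℝ, 0 < η → η ≤ 1 / 20 →
  ∃ ε : ℝ, 0 < ε ∧ ε ≤ 1 / 1000 ∧ ∀ A : ℝ, 0 < A → ∃ A1 C : ℝ, 0 < A1 ∧ 1 ≤ C ∧
  ∀ (T T' : ℝ) (m : ℕ) (a : Fin m → ℕ → ℂ) (N : Fin m → ℝ) (S : Finset ℝ) (c : ℝ → ℂ),
  C ≤ T → 1 ≤ T' → T' ≤ T ^ (1 + ε) →
  (∀ i, IsBlk (a i) (N i)) → (∀ i, T ^ η / 2 ≤ N i ∧ N i ≤ T ^ (1 / 2 + κ)) →
  T ^ (2 - ε) ≤ ∏ i, N i → ∏ i, N i ≤ T ^ (2 + ε) →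
  T ^ β ≤ ∏ i ∈ Finset.univ.filter (fun i => N i ≤ T ^ (41 / 100 : ℝ)), N i →
  (∀ i, ∀ t ∈ Icc T' (2 * T'), ‖PB (a i) (N i) t‖ ≤ N i / Real.log T ^ A1) →
  LSep S T → (S.card : ℝ) ≤ T ^ (1 / 3 : ℝ) → (∀ x, ‖c x‖ ≤ 1) →
  S.card * (∏ i, N i) / Real.log T ^ A ≤ ∫ t in T'..(2 * T'), ‖GS S c t‖ * ∏ i, ‖PB (a i) (N i) t‖ →
  (S.card : ℝ) ≤ C * T ^ r0

/-- **CELL THEOREM A** (general blocks, total length `T^ν`, `ν ≤ 2 - κ2`: the long factors have been reflected).  All blocks have length at most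
`T^(1/2+κ3)`, `κ3` small in terms of `κ2`; the loss `T^(-ε)` does not depend on `η`. -/
def StCellA : Prop := ∀ κ2 : ℝ, 0 < κ2 → κ2 ≤ 1 / 20 → ∃ κ3 ε : ℝ, 0 < κ3 ∧ κ3 ≤ κ2 / 10 ∧ 0 < ε ∧ ε ≤ κ3 / 10 ∧
  ∀ η : ℝ, 0 < η → η ≤ 1 / 20 → ∃ C : ℝ, 1 ≤ C ∧
  ∀ (T T' ν : ℝ) (m : ℕ) (a : Fin m → ℕ → ℂ) (N : Fin m → ℝ) (S : Finset ℝ) (c : ℝ → ℂ),
  C ≤ T → 1 ≤ T' → T' ≤ T ^ (1 + ε) →
  (∀ i, IsBlk (a i) (N i)) → (∀ i, T ^ η / 2 ≤ N i ∧ N i ≤ T ^ (1 / 2 + κ3)) →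
  ∏ i, N i = T ^ ν → ν ≤ 2 - κ2 →
  LSep S T → (S.card : ℝ) ≤ T ^ (1 / 3 : ℝ) → (∀ x, ‖c x‖ ≤ 1) →
  S.card * T ^ (1 + ν / 2 - ε) ≤ ∫ t in T'..(2 * T'), ‖GS S c t‖ * ∏ i, ‖PB (a i) (N i) t‖ →
  (S.card : ℝ) ≤ C * T ^ r0

end Pool.Agent.Work.MP_a8fbd7_nt.OX
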