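import Pool.Agent.Work.MP_56b8f5_nt.UC.I_Mel
import Pool.Agent.Work.MP_56b8f5_nt.UC.I_Gam
import Pool.Agent.Work.MP_56b8f5_nt.UC.I_Imf
import Pool.Agent.Work.MP_56b8f5_nt.UC.I_Ns
import Pool.Agent.Work.MP_56b8f5_nt.UC.I_N0
import Pool.Agent.Work.MP_56b8f5_nt.UC.I_Po
import Pool.Agent.Work.MP_56b8f5_nt.UC.I_Bc
import Pool.Agent.Work.MP_56b8f5_nt.UC.I_Rf
import Pool.Agent.Work.MP_56b8f5_nt.UC.I_Kp
import Pool.Agent.Work.MP_56b8f5_nt.UC.I_Kd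
import Pool.Agent.Work.MP_56b8f5_nt.UC.I_Mv
import Pool.Agent.Work.MP_56b8f5_nt.UC.I_Pw
import Pool.Agent.Work.MP_56b8f5_nt.UC.I_Mk
import Pool.Agent.Work.MP_56b8f5_nt.UC.I_S2
import Pool.Agent.Work.MP_56b8f5_nt.UC.I_Tr
import Pool.Agent.Work.MP_56b8f5_nt.UC.I_Du
import Pool.Agent.Work.MP_56b8f5_nt.UC.I_X3
import Pool.Agent.Work.MP_56b8f5_nt.UC.I_T2
import Pool.Agent.Work.MP_56b8f5_nt.UC.I_Jr
import Pool.Agent.Work.MP_56b8f5_nt.UC.I_T3a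
import Pool.Agent.Work.MP_56b8f5_nt.UC.I_T3b
import Pool.Agent.Work.MP_56b8f5_nt.UC.I_Mj
import Pool.Agent.Work.MP_56b8f5_nt.UC.I_Af
import Pool.Agent.Work.MP_56b8f5_nt.UC.I_R24
import Pool.Agent.Work.MP_56b8f5_nt.UC.I_T3
import Pool.Agent.Work.MP_56b8f5_nt.UC.I_Up1
import Pool.Agent.Work.MP_56b8f5_nt.UC.I_Up
import Pool.Agent.Work.MP_56b8f5_nt.UC.I_GM
import Pool.Agent.Work.MP_56b8f5_nt.UC.I_Hx

/-!
MP_a8fbd7_nt, block OX: the statements of the block UC of MP_56b8f5_nt which are used here.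
-/

namespace Pool.Agent.Work.MP_a8fbd7_nt.OX.Uc

open Pool.Agent.Work.MP_56b8f5_nt.UC

theorem u_Mel : StMel := iMel
theorem u_Gam : StGam := iGam
theorem u_Imf : StImf := iImf u_Mel u_Gam
theorem u_Ns : StNs := iNs
theorem u_N0 : StN0 := iN0 u_Mel
theorem u_Po : StPo := iPo
theorem u_Bc : StBc := iBc
theorem u_Rf : StRf := iRf u_Mel u_Gam u_Imf u_Ns u_N0 u_Po u_Bc
theorem u_Kp : StKp := iKp u_Rf u_Bc
theorem u_Kd : StKd := iKd u_Ns u_Po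
theorem u_Mv : StMv := iMv
theorem u_Pw : StPw := iPw
theorem u_Mk : StMk := iMk u_Mv u_Pw u_Bc
theorem u_S2 : StS2 := iS2
theorem u_Tr : StTr := iTr
theorem u_Du : StDu := iDu
theorem u_X3 : StX3 := iX3 u_Tr u_Du u_Kd u_N0 u_Bc u_S2
theorem u_T2 : StT2 := iT2 u_Kd u_N0 u_Rf u_Mk u_Ns u_Bc u_S2
theorem u_Jr : StJr := iJr
theorem u_T3a : StT3a := iT3a u_Jr
theorem u_T3b : StT3b := iT3b
theorem u_Mj : StMj := iMj
theorem u_Af : StAf := iAf u_Mj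
theorem u_R24 : StR24 := iR24 u_S2
theorem u_T3 : StT3 := iT3 u_T3a u_T3b u_Af u_R24
theorem u_Up1 : StUp1 := iUp1 u_Mv
theorem u_Up : StUp := iUp u_Up1 u_Kp u_S2
theorem u_GM : StGM := iGM u_X3 u_T2 u_T3
theorem u_Hx : StHx := iHx u_Du u_Kp u_S2

end Pool.Agent.Work.MP_a8fbd7_nt.OX.Uc
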