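import Mathlib

/-!
MP_a8fbd7_nt (Oppermann intervals), block OX: the elementary collision lemma.

`S` is a finite set of reals which are `1/T`-separated (`S = {log x_r}`), `R = #S`.  The number of
`(u,v,m,n) ∈ S² × [1,N]²` with `|u - v + log m - log n| ≤ c/T` is
`≤ K c D² (1 + log T)² (R N + R^(7/4) N T^(-1/4)) + 24 c R² N² / T`.
(D. R. Heath-Brown, Differences between consecutive primes V.)
-/

set_option autoImplicit false

namespace Pool.Agent.Work.MP_a8fbd7_nt.OX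

open Finset

noncomputable section

/-- number of pairs of `S` whose difference is within `δ` of `log (b/a)` -/
def qc (S : Finset ℝ) (δ : ℝ) (a b : ℕ) : ℕ :=
  ((S ×ˢ S).filter (fun p => |p.1 - p.2 + Real.log a - Real.log b| ≤ δ)).card

/-- collisions -/
def Ec (S : Finset ℝ) (δ : ℝ) (N : ℕ) : ℕ :=
  ∑ p ∈ Icc 1 N ×ˢ Icc 1 N, qc S δ p.1 p.2

/-- coprime pairs up to `N` -/
def Pc (N : ℕ) : Finset (ℕ × ℕ) := (Icc 1 N ×ˢ Icc 1 N).filter (fun p => Nat.Coprime p.1 p.2)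

/-- the weighted count over coprime pairs -/
def Zc (S : Finset ℝ) (δ : ℝ) (N : ℕ) : ℝ :=
  ∑ p ∈ Pc N, (qc S δ p.1 p.2 : ℝ) / (max p.1 p.2 : ℕ)

/-- the count over coprime pairs -/
def Qc (S : Finset ℝ) (δ : ℝ) (K : ℕ) : ℕ := ∑ p ∈ Pc K, qc S δ p.1 p.2

theorem mem_Pc {N : ℕ} {p : ℕ × ℕ} :
    p ∈ Pc N ↔ 1 ≤ p.1 ∧ p.1 ≤ N ∧ 1 ≤ p.2 ∧ p.2 ≤ N ∧ Nat.Coprime p.1 p.2 := by
  simp only [Pc, mem_filter, mem_product, mem_Icc]
  tauto

theorem Pc_mono {M N : ℕ} (h : M ≤ N) : Pc M ⊆ Pc N := by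
  intro p hp
  rw [mem_Pc] at hp ⊢
  obtain ⟨h1, h2, h3, h4, h5⟩ := hp
  exact ⟨h1, h2.trans h, h3, h4.trans h, h5⟩

theorem qc_mul (S : Finset ℝ) (δ : ℝ) (g a b : ℕ) (hg : 1 ≤ g) (ha : 1 ≤ a) (hb : 1 ≤ b) :
    qc S δ (g * a) (g * b) = qc S δ a b := by
  unfold qc
  congr 1
  apply filter_congr
  intro p _
  have hg' : (g : ℝ) ≠ 0 := by positivity
  have ha' : (a : ℝ) ≠ 0 := by positivity
  have hb' : (b : ℝ) ≠ 0 := by positivity
  rw [Nat.cast_mul, Nat.cast_mul, Real.log_mul hg' ha', Real.log_mul hg' hb']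
  have : p.1 - p.2 + (Real.log g + Real.log a) - (Real.log g + Real.log b) =
      p.1 - p.2 + Real.log a - Real.log b := by ring
  rw [this]

theorem qc_mono (S : Finset ℝ) {δ δ' : ℝ} (h : δ ≤ δ') (a b : ℕ) : qc S δ a b ≤ qc S δ' a b := by
  unfold qc
  apply card_le_card
  intro p hp
  rw [mem_filter] at hp ⊢
  exact ⟨hp.1, hp.2.trans h⟩

/-- exact formula -/
theorem Ec_eq (S : Finset ℝ) (δ : ℝ) (N : ℕ) :
    Ec S δ N = ∑ p ∈ Pc N, qc S δ p.1 p.2 * (N / max p.1 p.2) := by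
  unfold Ec
  have hmap : ∀ p ∈ Icc 1 N ×ˢ Icc 1 N,
      ((p.1 / Nat.gcd p.1 p.2, p.2 / Nat.gcd p.1 p.2) : ℕ × ℕ) ∈ Pc N := by
    intro p hp
    rw [mem_product, mem_Icc, mem_Icc] at hp
    obtain ⟨⟨h1, h2⟩, h3, h4⟩ := hp
    have hg : 0 < Nat.gcd p.1 p.2 := Nat.gcd_pos_of_pos_left _ (by omega)
    rw [mem_Pc]
    refine ⟨?_, ?_, ?_, ?_, ?_⟩
    · exact Nat.div_pos (Nat.gcd_le_left _ (by omega)) hg
    · exact (Nat.div_le_self _ _).trans h2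
    · exact Nat.div_pos (Nat.gcd_le_right _ (by omega)) hg
    · exact (Nat.div_le_self _ _).trans h4
    · exact Nat.coprime_div_gcd_div_gcd hg
  rw [← sum_fiberwise_of_maps_to hmap]
  apply sum_congr rfl
  intro ab hab
  obtain ⟨h1, h2, h3, h4, h5⟩ := mem_Pc.mp hab
  obtain ⟨a, b⟩ := ab
  simp only at h1 h2 h3 h4 h5 ⊢
  have hset : (Icc 1 N ×ˢ Icc 1 N).filter (fun p : ℕ × ℕ =>
      ((p.1 / Nat.gcd p.1 p.2, p.2 / Nat.gcd p.1 p.2) : ℕ × ℕ) = (a, b)) =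
      (Icc 1 (N / max a b)).image (fun g => (g * a, g * b)) := by
    ext ⟨m, n⟩
    simp only [mem_filter, mem_product, mem_Icc, Prod.mk.injEq, mem_image]
    constructor
    · rintro ⟨⟨⟨m1, m2⟩, n1, n2⟩, ha, hb⟩
      have hg : 0 < Nat.gcd m n := Nat.gcd_pos_of_pos_left _ (by omega)
      have e1 : Nat.gcd m n * a = m := by rw [← ha]; exact Nat.mul_div_cancel' (Nat.gcd_dvd_left _ _)
      have e2 : Nat.gcd m n * b = n := by rw [← hb]; exact Nat.mul_div_cancel' (Nat.gcd_dvd_right _ _)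
      refine ⟨Nat.gcd m n, ⟨hg, ?_⟩, e1, e2⟩
      rw [Nat.le_div_iff_mul_le (by omega)]
      rcases le_total a b with h | h
      · rw [max_eq_right h, e2]; exact n2
      · rw [max_eq_left h, e1]; exact m2
    · rintro ⟨g, ⟨g1, g2⟩, rfl, rfl⟩
      rw [Nat.le_div_iff_mul_le (by omega)] at g2
      have e : Nat.gcd (g * a) (g * b) = g := by rw [Nat.gcd_mul_left, h5.gcd_eq_one, mul_one]
      have ga : g * a ≤ N := (Nat.mul_le_mul_left g (le_max_left a b)).trans g2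
      have gb : g * b ≤ N := (Nat.mul_le_mul_left g (le_max_right a b)).trans g2
      refine ⟨⟨⟨Nat.mul_pos g1 h1, ga⟩, Nat.mul_pos g1 h3, gb⟩, ?_, ?_⟩
      · rw [e]; exact Nat.mul_div_cancel_left _ g1
      · rw [e]; exact Nat.mul_div_cancel_left _ g1
  rw [hset, sum_image]
  · rw [sum_congr rfl (fun g hg => qc_mul S δ g a b (mem_Icc.mp hg).1 h1 h3), sum_const,
      Nat.card_Icc, smul_eq_mul, Nat.add_sub_cancel, mul_comm]
  · intro g _ g' _ h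
    simp only [Prod.mk.injEq] at h
    exact Nat.eq_of_mul_eq_mul_right h1 h.1

theorem Ec_le (S : Finset ℝ) (δ : ℝ) (N : ℕ) : (Ec S δ N : ℝ) ≤ N * Zc S δ N := by
  rw [Ec_eq, Zc, mul_sum]
  push_cast
  apply sum_le_sum
  intro p _
  have h : ((N / max p.1 p.2 : ℕ) : ℝ) ≤ (N : ℝ) / ((max p.1 p.2 : ℕ) : ℝ) := Nat.cast_div_le
  calc (qc S δ p.1 p.2 : ℝ) * ((N / max p.1 p.2 : ℕ) : ℝ)
      ≤ (qc S δ p.1 p.2 : ℝ) * ((N : ℝ) / ((max p.1 p.2 : ℕ) : ℝ)) := by gcongr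
    _ = _ := by push_cast; ring

theorem Zc_le (S : Finset ℝ) (δ : ℝ) (N : ℕ) : (N : ℝ) * Zc S δ N ≤ 2 * Ec S δ N := by
  rw [Ec_eq, Zc, mul_sum]
  push_cast
  rw [mul_sum]
  apply sum_le_sum
  intro p hp
  obtain ⟨h1, h2, h3, h4, -⟩ := mem_Pc.mp hp
  set m := max p.1 p.2 with hm
  have hm1 : 1 ≤ m := h1.trans (le_max_left _ _)
  have hmN : m ≤ N := max_le h2 h4
  have h : (N : ℝ) / (m : ℝ) ≤ 2 * ((N / m : ℕ) : ℝ) := by
    rw [div_le_iff₀ (by positivity)]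
    have h5 : N < m * (N / m + 1) := Nat.lt_mul_div_succ N (by omega)
    have h6 : 1 ≤ N / m := Nat.div_pos hmN (by omega)
    have h7 : N ≤ 2 * (N / m) * m := by nlinarith
    exact_mod_cast h7
  have hcast : ((max p.1 p.2 : ℕ) : ℝ) = (m : ℝ) := rfl
  calc (N : ℝ) * ((qc S δ p.1 p.2 : ℝ) / max (p.1 : ℝ) (p.2 : ℝ))
      = (qc S δ p.1 p.2 : ℝ) * ((N : ℝ) / (m : ℝ)) := by rw [hm, Nat.cast_max]; ring
    _ ≤ (qc S δ p.1 p.2 : ℝ) * (2 * ((N / m : ℕ) : ℝ)) := by gcongr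
    _ = _ := by ring

theorem Zc_nonneg (S : Finset ℝ) (δ : ℝ) (N : ℕ) : 0 ≤ Zc S δ N :=
  sum_nonneg fun _ _ => by positivity

theorem Zc_mono (S : Finset ℝ) (δ : ℝ) {M N : ℕ} (h : M ≤ N) : Zc S δ M ≤ Zc S δ N :=
  sum_le_sum_of_subset_of_nonneg (Pc_mono h) fun _ _ _ => by positivity

/-- separated values in an interval -/
theorem card_le_of_sep {α : Type*} (F : Finset α) (f : α → ℝ) (s x δ : ℝ) (hs : 0 < s)
    (hδ : 0 ≤ δ) (hsep : ∀ p ∈ F, ∀ q ∈ F, p ≠ q → s ≤ |f p - f q|)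
    (hin : ∀ p ∈ F, |f p - x| ≤ δ) : (F.card : ℝ) ≤ 1 + 2 * δ / s := by
  classical
  have hinj : Set.InjOn (fun p => ⌊(f p - (x - δ)) / s⌋₊) (F : Set α) := by
    intro p hp q hq h
    by_contra hne
    have h1 := hsep p hp q hq hne
    have hp1 := abs_le.mp (hin p hp)
    have hq1 := abs_le.mp (hin q hq)
    have hp0 : 0 ≤ (f p - (x - δ)) / s := div_nonneg (by linarith) hs.le
    have hq0 : 0 ≤ (f q - (x - δ)) / s := div_nonneg (by linarith) hs.le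
    have a1 := Nat.floor_le hp0
    have a2 := Nat.lt_floor_add_one ((f p - (x - δ)) / s)
    have b1 := Nat.floor_le hq0
    have b2 := Nat.lt_floor_add_one ((f q - (x - δ)) / s)
    simp only at h
    rw [h] at a1 a2
    have h2 : |(f p - (x - δ)) / s - (f q - (x - δ)) / s| < 1 := by
      rw [abs_lt]; constructor <;> linarith
    have h3 : (f p - (x - δ)) / s - (f q - (x - δ)) / s = (f p - f q) / s := by ring
    rw [h3, abs_div, abs_of_pos hs, div_lt_one hs] at h2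
    linarith
  have himg : F.image (fun p => ⌊(f p - (x - δ)) / s⌋₊) ⊆ range (⌊2 * δ / s⌋₊ + 1) := by
    intro k hk
    rw [mem_image] at hk
    obtain ⟨p, hp, rfl⟩ := hk
    have hp1 := abs_le.mp (hin p hp)
    rw [mem_range, Nat.lt_add_one_iff]
    apply Nat.floor_le_floor
    gcongr
    linarith
  have h1 := card_le_card himg
  rw [card_image_of_injOn hinj, card_range] at h1
  have h2 : ((⌊2 * δ / s⌋₊ : ℕ) : ℝ) ≤ 2 * δ / s := Nat.floor_le (by positivity)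
  have h3 : (F.card : ℝ) ≤ (⌊2 * δ / s⌋₊ : ℕ) + 1 := by exact_mod_cast h1
  linarith

/-- `|log m - log n| ≥ 1 / max m n` for different naturals -/
theorem log_sep (m n K : ℕ) (hm : 1 ≤ m) (hn : 1 ≤ n) (hmK : m ≤ K) (hnK : n ≤ K) (h : m ≠ n) :
    1 / (K : ℝ) ≤ |Real.log m - Real.log n| := by
  wlog hlt : n < m generalizing m n
  · rw [abs_sub_comm]
    exact this n m hn hm hnK hmK (Ne.symm h) (by omega)
  have hm0 : (0 : ℝ) < m := by positivity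
  have hn0 : (0 : ℝ) < n := by positivity
  have h1 : 1 / (m : ℝ) ≤ Real.log m - Real.log n := by
    have h2 := Real.one_sub_inv_le_log_of_pos (show (0 : ℝ) < m / n by positivity)
    rw [Real.log_div hm0.ne' hn0.ne'] at h2
    refine le_trans ?_ h2
    rw [inv_div]
    have h3 : (n : ℝ) + 1 ≤ m := by exact_mod_cast hlt
    have h4 : 1 - (n : ℝ) / m = (m - n) / m := by field_simp
    rw [h4]
    gcongr
    linarith
  have h5 : 1 / (K : ℝ) ≤ 1 / (m : ℝ) := by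
    apply one_div_le_one_div_of_le hm0
    exact_mod_cast hmK
  exact (h5.trans h1).trans (le_abs_self _)

theorem Qc_triv (S : Finset ℝ) (δ : ℝ) (hδ : 0 ≤ δ) (K : ℕ) :
    (Qc S δ K : ℝ) ≤ (S.card : ℝ) ^ 2 * (1 + 2 * δ * (K : ℝ) ^ 2) := by
  have hswap : Qc S δ K = ∑ w ∈ S ×ˢ S,
      ((Pc K).filter (fun p => |w.1 - w.2 + Real.log p.1 - Real.log p.2| ≤ δ)).card := by
    unfold Qc qc
    simp only [card_filter]
    rw [sum_comm]
  rw [hswap]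
  push_cast
  have hb : ∀ w ∈ S ×ˢ S,
      (((Pc K).filter (fun p => |w.1 - w.2 + Real.log p.1 - Real.log p.2| ≤ δ)).card : ℝ) ≤
        1 + 2 * δ * (K : ℝ) ^ 2 := by
    intro w _
    rcases Nat.eq_zero_or_pos K with h0 | hK
    · subst h0
      have : Pc 0 = ∅ := by
        ext p; rw [mem_Pc]; simp; omega
      rw [this]
      simp
    have hK' : (0 : ℝ) < K := by positivity
    have h1 := card_le_of_sep
      ((Pc K).filter (fun p => |w.1 - w.2 + Real.log p.1 - Real.log p.2| ≤ δ))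
      (fun p => Real.log p.1 - Real.log p.2) (1 / (K : ℝ) ^ 2) (w.2 - w.1) δ (by positivity) hδ ?_ ?_
    · refine h1.trans (le_of_eq ?_)
      field_simp
    · intro p hp q hq hne
      rw [mem_filter, mem_Pc] at hp hq
      obtain ⟨⟨p1, p2, p3, p4, p5⟩, -⟩ := hp
      obtain ⟨⟨q1, q2, q3, q4, q5⟩, -⟩ := hq
      have hne' : p.1 * q.2 ≠ q.1 * p.2 := by
        intro h
        apply hne
        have d1 : p.1 ∣ q.1 := by
          apply Nat.Coprime.dvd_of_dvd_mul_right p5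
          exact ⟨q.2, h.symm⟩
        have d2 : q.1 ∣ p.1 := by
          apply Nat.Coprime.dvd_of_dvd_mul_right q5
          exact ⟨p.2, h⟩
        have e1 : p.1 = q.1 := Nat.dvd_antisymm d1 d2
        have e2 : p.2 = q.2 := by
          rw [e1] at h
          exact (Nat.eq_of_mul_eq_mul_left (by omega) h).symm
        exact Prod.ext e1 e2
      have h2 := log_sep (p.1 * q.2) (q.1 * p.2) (K ^ 2) (Nat.mul_pos p1 q3) (Nat.mul_pos q1 p3)
        (by rw [pow_two]; exact Nat.mul_le_mul p2 q4) (by rw [pow_two]; exact Nat.mul_le_mul q2 p4) hne'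
      have e : Real.log ((p.1 * q.2 : ℕ) : ℝ) - Real.log ((q.1 * p.2 : ℕ) : ℝ) =
          (Real.log p.1 - Real.log p.2) - (Real.log q.1 - Real.log q.2) := by
        rw [Nat.cast_mul, Nat.cast_mul, Real.log_mul (by positivity) (by positivity),
          Real.log_mul (by positivity) (by positivity)]
        ring
      rw [e] at h2
      rw [Nat.cast_pow] at h2
      exact h2
    · intro p hp
      rw [mem_filter] at hp
      have e : Real.log p.1 - Real.log p.2 - (w.2 - w.1) = w.1 - w.2 + Real.log p.1 - Real.log p.2 := by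
        ring
      rw [e]
      exact hp.2
  calc ∑ w ∈ S ×ˢ S, (((Pc K).filter (fun p => |w.1 - w.2 + Real.log p.1 - Real.log p.2| ≤ δ)).card : ℝ)
      ≤ ∑ _w ∈ S ×ˢ S, (1 + 2 * δ * (K : ℝ) ^ 2) := sum_le_sum hb
    _ = _ := by rw [sum_const, card_product, nsmul_eq_mul]; push_cast; ring

/-! ### autocorrelation -/

/-- pairs in cells at distance `d` -/
def Nd {ι : Type*} (I : Finset ι) (k : ι → ℤ) (d : ℤ) : ℕ :=
  ((I ×ˢ I).filter (fun p => k p.2 = k p.1 + d)).card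

theorem Nd_le {ι : Type*} (I : Finset ι) (k : ι → ℤ) (d : ℤ) : Nd I k d ≤ Nd I k 0 := by
  classical
  set c : ℤ → ℕ := fun j => (I.filter (fun i => k i = j)).card with hc
  have h1 : ∀ e : ℤ, Nd I k e = ∑ j ∈ I.image k, c j * c (j + e) := by
    intro e
    unfold Nd
    rw [card_filter, sum_product]
    have h2 : ∀ i ∈ I, ∑ j ∈ I, (if k j = k i + e then 1 else 0) = c (k i + e) := by
      intro i _
      rw [hc]
      simp only [card_filter]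
    rw [sum_congr rfl h2, ← sum_fiberwise_of_maps_to (fun i hi => mem_image_of_mem k hi)]
    apply sum_congr rfl
    intro j _
    have h3 : ∀ i ∈ I.filter (fun i => k i = j), c (k i + e) = c (j + e) := by
      intro i hi
      rw [(mem_filter.mp hi).2]
    rw [sum_congr rfl h3, sum_const, smul_eq_mul]
  have h0 : ∀ j, j ∉ I.image k → c j = 0 := by
    intro j hj
    rw [hc]
    simp only [card_eq_zero]
    rw [filter_eq_empty_iff]
    intro i hi h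
    exact hj (h ▸ mem_image_of_mem k hi)
  have h4 : ∑ j ∈ I.image k, c (j + d) ^ 2 ≤ ∑ j ∈ I.image k, c j ^ 2 := by
    have h5 : ∑ j ∈ I.image k, c (j + d) ^ 2 = ∑ j ∈ (I.image k).map (addRightEmbedding d), c j ^ 2 := by
      rw [sum_map]; rfl
    rw [h5]
    have h6 : ∑ j ∈ (I.image k).map (addRightEmbedding d), c j ^ 2 =
        ∑ j ∈ ((I.image k).map (addRightEmbedding d)).filter (fun j => j ∈ I.image k), c j ^ 2 := by
      rw [sum_filter]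
      apply sum_congr rfl
      intro j _
      split_ifs with h
      · rfl
      · rw [h0 j h]; rfl
    rw [h6]
    apply sum_le_sum_of_subset
    intro j hj
    exact (mem_filter.mp hj).2
  have h7 : 2 * ∑ j ∈ I.image k, c j * c (j + d) ≤ 2 * ∑ j ∈ I.image k, c j * c (j + 0) := by
    calc 2 * ∑ j ∈ I.image k, c j * c (j + d)
        = ∑ j ∈ I.image k, 2 * (c j * c (j + d)) := by rw [mul_sum]
      _ ≤ ∑ j ∈ I.image k, (c j ^ 2 + c (j + d) ^ 2) := by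
          apply sum_le_sum
          intro j _
          zify
          nlinarith [sq_nonneg ((c j : ℤ) - c (j + d))]
      _ = ∑ j ∈ I.image k, c j ^ 2 + ∑ j ∈ I.image k, c (j + d) ^ 2 := sum_add_distrib
      _ ≤ ∑ j ∈ I.image k, c j ^ 2 + ∑ j ∈ I.image k, c j ^ 2 := by gcongr
      _ = 2 * ∑ j ∈ I.image k, c j * c (j + 0) := by
          rw [← two_mul]
          congr 1
          apply sum_congr rfl
          intro j _
          rw [add_zero, pow_two]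
  rw [h1 d, h1 0]
  omega

theorem Nd_zero_le {ι : Type*} (I : Finset ι) (f : ι → ℝ) (δ : ℝ) (hδ : 0 < δ) :
    Nd I (fun i => ⌊f i / δ⌋) 0 ≤ ((I ×ˢ I).filter (fun p => |f p.1 - f p.2| ≤ δ)).card := by
  unfold Nd
  apply card_le_card
  intro p hp
  rw [mem_filter] at hp ⊢
  refine ⟨hp.1, ?_⟩
  have h : ⌊f p.2 / δ⌋ = ⌊f p.1 / δ⌋ := by
    have := hp.2
    rwa [add_zero] at this
  have a1 := Int.floor_le (f p.1 / δ)
  have a2 := Int.lt_floor_add_one (f p.1 / δ)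
  have b1 := Int.floor_le (f p.2 / δ)
  have b2 := Int.lt_floor_add_one (f p.2 / δ)
  rw [h] at b1 b2
  have h2 : |f p.1 / δ - f p.2 / δ| ≤ 1 := by
    rw [abs_le]; constructor <;> linarith
  rw [← sub_div, abs_div, abs_of_pos hδ, div_le_one hδ] at h2
  exact h2

theorem auto_two {ι : Type*} (I : Finset ι) (f : ι → ℝ) (δ : ℝ) (hδ : 0 < δ) :
    ((I ×ˢ I).filter (fun p => |f p.1 - f p.2| ≤ 2 * δ)).card ≤
      5 * ((I ×ˢ I).filter (fun p => |f p.1 - f p.2| ≤ δ)).card := by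
  classical
  set k : ι → ℤ := fun i => ⌊f i / δ⌋ with hk
  have h1 : ((I ×ˢ I).filter (fun p => |f p.1 - f p.2| ≤ 2 * δ)) ⊆
      (Icc (-2 : ℤ) 2).biUnion (fun d => (I ×ˢ I).filter (fun p => k p.2 = k p.1 + d)) := by
    intro p hp
    rw [mem_filter] at hp
    rw [mem_biUnion]
    refine ⟨k p.2 - k p.1, ?_, ?_⟩
    · have a1 := Int.floor_le (f p.1 / δ)
      have a2 := Int.lt_floor_add_one (f p.1 / δ)
      have b1 := Int.floor_le (f p.2 / δ)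
      have b2 := Int.lt_floor_add_one (f p.2 / δ)
      have h3 : |f p.1 / δ - f p.2 / δ| ≤ 2 := by
        rw [← sub_div, abs_div, abs_of_pos hδ, div_le_iff₀ hδ]
        exact hp.2
      rw [abs_le] at h3
      rw [mem_Icc]
      have h4 : ((k p.2 : ℤ) : ℝ) - (k p.1 : ℤ) < 3 := by
        simp only [hk]; linarith
      have h5 : -3 < ((k p.2 : ℤ) : ℝ) - (k p.1 : ℤ) := by
        simp only [hk]; linarith
      have h6 : k p.2 - k p.1 < 3 := by exact_mod_cast h4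
      have h7 : -3 < k p.2 - k p.1 := by exact_mod_cast h5
      omega
    · rw [mem_filter]
      exact ⟨hp.1, by ring⟩
  calc ((I ×ˢ I).filter (fun p => |f p.1 - f p.2| ≤ 2 * δ)).card
      ≤ _ := card_le_card h1
    _ ≤ ∑ d ∈ Icc (-2 : ℤ) 2, Nd I k d := card_biUnion_le
    _ ≤ ∑ _d ∈ Icc (-2 : ℤ) 2, Nd I k 0 := sum_le_sum fun d _ => Nd_le I k d
    _ = 5 * Nd I k 0 := by rw [sum_const, smul_eq_mul]; rfl
    _ ≤ _ := Nat.mul_le_mul_left 5 (Nd_zero_le I f δ hδ)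

/-- `Ec` as an autocorrelation -/
theorem Ec_auto (S : Finset ℝ) (δ : ℝ) (N : ℕ) :
    Ec S δ N = (((S ×ˢ Icc 1 N) ×ˢ (S ×ˢ Icc 1 N)).filter
      (fun p : (ℝ × ℕ) × (ℝ × ℕ) => |(p.1.1 + Real.log p.1.2) - (p.2.1 + Real.log p.2.2)| ≤ δ)).card := by
  unfold Ec qc
  simp only [card_filter, sum_product]
  calc ∑ m ∈ Icc 1 N, ∑ n ∈ Icc 1 N, ∑ u ∈ S, ∑ v ∈ S,
        (if |u - v + Real.log m - Real.log n| ≤ δ then 1 else 0)
      = ∑ m ∈ Icc 1 N, ∑ u ∈ S, ∑ n ∈ Icc 1 N, ∑ v ∈ S,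
        (if |u - v + Real.log m - Real.log n| ≤ δ then 1 else 0) :=
          sum_congr rfl fun m _ => sum_comm
    _ = ∑ u ∈ S, ∑ m ∈ Icc 1 N, ∑ n ∈ Icc 1 N, ∑ v ∈ S,
        (if |u - v + Real.log m - Real.log n| ≤ δ then 1 else 0) := sum_comm
    _ = ∑ u ∈ S, ∑ m ∈ Icc 1 N, ∑ v ∈ S, ∑ n ∈ Icc 1 N,
        (if |(u + Real.log m) - (v + Real.log n)| ≤ δ then 1 else 0) := by
          apply sum_congr rfl; intro u _
          apply sum_congr rfl; intro m _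
          rw [sum_comm]
          apply sum_congr rfl; intro v _
          apply sum_congr rfl; intro n _
          have : u - v + Real.log m - Real.log n = (u + Real.log m) - (v + Real.log n) := by ring
          rw [this]

theorem Ec_two (S : Finset ℝ) (δ : ℝ) (hδ : 0 < δ) (N : ℕ) : Ec S (2 * δ) N ≤ 5 * Ec S δ N := by
  rw [Ec_auto, Ec_auto]
  exact auto_two (S ×ˢ Icc 1 N) (fun i => i.1 + Real.log i.2) δ hδ

/-! ### Cauchy -/

theorem sum_pairs_le (S : Finset ℝ) (δ D : ℝ) (K : ℕ)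
    (hD : ∀ m : ℕ, 1 ≤ m → m ≤ K ^ 2 → (m.divisors.card : ℝ) ≤ D) :
    ∑ w ∈ Pc K ×ˢ Pc K, (qc S δ (w.1.1 * w.2.2) (w.2.1 * w.1.2) : ℝ) ≤ D ^ 2 * Ec S δ (K ^ 2) := by
  classical
  have hmap : ∀ w ∈ Pc K ×ˢ Pc K, ((w.1.1 * w.2.2, w.2.1 * w.1.2) : ℕ × ℕ) ∈
      Icc 1 (K ^ 2) ×ˢ Icc 1 (K ^ 2) := by
    intro w hw
    rw [mem_product, mem_Pc, mem_Pc] at hw
    obtain ⟨⟨a1, a2, a3, a4, -⟩, b1, b2, b3, b4, -⟩ := hw
    rw [mem_product, mem_Icc, mem_Icc, pow_two]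
    exact ⟨⟨Nat.mul_pos a1 b3, Nat.mul_le_mul a2 b4⟩, Nat.mul_pos b1 a3, Nat.mul_le_mul b2 a4⟩
  rw [← sum_fiberwise_of_maps_to hmap]
  unfold Ec
  push_cast
  rw [mul_sum]
  apply sum_le_sum
  intro mn hmn
  obtain ⟨m, n⟩ := mn
  rw [mem_product, mem_Icc, mem_Icc] at hmn
  obtain ⟨⟨m1, m2⟩, n1, n2⟩ := hmn
  simp only at m1 m2 n1 n2
  set F := (Pc K ×ˢ Pc K).filter (fun w : (ℕ × ℕ) × (ℕ × ℕ) =>
    ((w.1.1 * w.2.2, w.2.1 * w.1.2) : ℕ × ℕ) = (m, n)) with hF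
  have h1 : ∀ w ∈ F, (qc S δ (w.1.1 * w.2.2) (w.2.1 * w.1.2) : ℝ) = qc S δ m n := by
    intro w hw
    have h := (mem_filter.mp hw).2
    rw [Prod.mk.injEq] at h
    rw [h.1, h.2]
  rw [sum_congr rfl h1, sum_const, nsmul_eq_mul]
  have h2 : F.card ≤ (m.divisors ×ˢ n.divisors).card := by
    apply card_le_card_of_injOn (fun w : (ℕ × ℕ) × (ℕ × ℕ) => ((w.1.1, w.2.1) : ℕ × ℕ))
    · intro w hw
      have hw' := mem_filter.mp (mem_coe.mp hw)
      have h := hw'.2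
      rw [Prod.mk.injEq] at h
      simp only [coe_product, Set.mem_prod, mem_coe, Nat.mem_divisors]
      exact ⟨⟨⟨w.2.2, h.1.symm⟩, by omega⟩, ⟨w.1.2, h.2.symm⟩, by omega⟩
    · intro w hw w' hw' h
      have hw1 := mem_filter.mp (mem_coe.mp hw)
      have hw1' := mem_filter.mp (mem_coe.mp hw')
      have e := hw1.2
      have e' := hw1'.2
      rw [Prod.mk.injEq] at e e'
      simp only [Prod.mk.injEq] at h
      have q1 := hw1.1
      rw [mem_product, mem_Pc, mem_Pc] at q1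
      obtain ⟨⟨a1, -⟩, b1, -⟩ := q1
      have e1 : w.2.2 = w'.2.2 := by
        apply Nat.eq_of_mul_eq_mul_left (show 0 < w.1.1 by omega)
        rw [e.1, h.1, e'.1]
      have e2 : w.1.2 = w'.1.2 := by
        apply Nat.eq_of_mul_eq_mul_left (show 0 < w.2.1 by omega)
        rw [e.2, h.2, e'.2]
      exact Prod.ext (Prod.ext h.1 e2) (Prod.ext h.2 e1)
  have h3 : (F.card : ℝ) ≤ D ^ 2 := by
    calc (F.card : ℝ) ≤ ((m.divisors ×ˢ n.divisors).card : ℝ) := by exact_mod_cast h2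
      _ = (m.divisors.card : ℝ) * (n.divisors.card : ℝ) := by rw [card_product]; push_cast; ring
      _ ≤ D * D := by
          have d1 := hD m m1 m2
          have d2 := hD n n1 n2
          have : (0 : ℝ) ≤ D := le_trans (by positivity) d1
          gcongr
      _ = D ^ 2 := by ring
  gcongr

theorem Qc_cauchy (S : Finset ℝ) (T δ D : ℝ) (hT : 0 < T) (hδ : 0 ≤ δ)
    (hS : ∀ u ∈ S, ∀ v ∈ S, u ≠ v → 1 / T ≤ |u - v|) (K : ℕ)
    (hD : ∀ m : ℕ, 1 ≤ m → m ≤ K ^ 2 → (m.divisors.card : ℝ) ≤ D) :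
    (Qc S δ K : ℝ) ^ 2 ≤ S.card * ((1 + 2 * δ * T) * (D ^ 2 * Ec S (2 * δ) (K ^ 2))) := by
  classical
  set W := S ×ˢ Pc K with hW
  set c : ℝ × (ℕ × ℕ) → ℝ → Prop := fun w v =>
    |w.1 - v + Real.log w.2.1 - Real.log w.2.2| ≤ δ with hc
  set g : ℝ → ℝ := fun v => ∑ w ∈ W, (if c w v then 1 else 0) with hg
  have h1 : (Qc S δ K : ℝ) = ∑ v ∈ S, g v := by
    unfold Qc qc
    simp only [card_filter, sum_product, hg, hW, hc]
    push_cast
    calc ∑ p ∈ Pc K, ∑ u ∈ S, ∑ v ∈ S, (if |u - v + Real.log p.1 - Real.log p.2| ≤ δ then (1 : ℝ) else 0)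
        = ∑ u ∈ S, ∑ p ∈ Pc K, ∑ v ∈ S, (if |u - v + Real.log p.1 - Real.log p.2| ≤ δ then (1 : ℝ) else 0) :=
          sum_comm
      _ = ∑ u ∈ S, ∑ v ∈ S, ∑ p ∈ Pc K, (if |u - v + Real.log p.1 - Real.log p.2| ≤ δ then (1 : ℝ) else 0) :=
          sum_congr rfl fun u _ => sum_comm
      _ = _ := sum_comm
  have h2 : (∑ v ∈ S, g v) ^ 2 ≤ S.card * ∑ v ∈ S, g v ^ 2 := sq_sum_le_card_mul_sum_sq
  have h3 : ∀ v, g v ^ 2 = ∑ w ∈ W, ∑ w' ∈ W, (if c w v ∧ c w' v then (1 : ℝ) else 0) := by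
    intro v
    rw [pow_two, hg]
    simp only
    rw [sum_mul_sum]
    apply sum_congr rfl; intro w _
    apply sum_congr rfl; intro w' _
    by_cases h : c w v <;> by_cases h' : c w' v <;> simp [h, h']
  set c2 : ℝ × (ℕ × ℕ) → ℝ × (ℕ × ℕ) → Prop := fun w w' =>
    |w.1 - w'.1 + Real.log ((w.2.1 * w'.2.2 : ℕ) : ℝ) - Real.log ((w'.2.1 * w.2.2 : ℕ) : ℝ)| ≤ 2 * δ with hc2
  have h4 : ∀ w ∈ W, ∀ w' ∈ W, ∑ v ∈ S, (if c w v ∧ c w' v then (1 : ℝ) else 0) ≤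
      (1 + 2 * δ * T) * (if c2 w w' then 1 else 0) := by
    intro w hw w' hw'
    rw [hW, mem_product, mem_Pc] at hw hw'
    obtain ⟨-, a1, -, a3, -⟩ := hw
    obtain ⟨-, b1, -, b3, -⟩ := hw'
    by_cases h : c2 w w'
    · rw [if_pos h, mul_one, ← sum_filter, sum_const, nsmul_eq_mul, mul_one]
      have h5 := card_le_of_sep (S.filter (fun v => c w v ∧ c w' v)) (fun v => v) (1 / T)
        (w.1 + Real.log w.2.1 - Real.log w.2.2) δ (by positivity) hδ ?_ ?_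
      · refine h5.trans (le_of_eq ?_)
        field_simp
      · intro u hu v hv hne
        exact hS u (mem_filter.mp hu).1 v (mem_filter.mp hv).1 hne
      · intro v hv
        have h6 : c w v := (mem_filter.mp hv).2.1
        rw [hc] at h6
        rw [abs_sub_comm]
        have e : w.1 + Real.log w.2.1 - Real.log w.2.2 - v =
            w.1 - v + Real.log w.2.1 - Real.log w.2.2 := by ring
        rw [e]
        exact h6
    · rw [if_neg h, mul_zero]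
      apply le_of_eq
      apply sum_eq_zero
      intro v _
      rw [if_neg]
      rintro ⟨x1, x2⟩
      apply h
      rw [hc] at x1 x2
      rw [hc2]
      simp only at x1 x2 ⊢
      have p1 : (w.2.1 : ℝ) ≠ 0 := by positivity
      have p2 : (w.2.2 : ℝ) ≠ 0 := by positivity
      have p3 : (w'.2.1 : ℝ) ≠ 0 := by positivity
      have p4 : (w'.2.2 : ℝ) ≠ 0 := by positivity
      rw [Nat.cast_mul, Nat.cast_mul, Real.log_mul p1 p4, Real.log_mul p3 p2]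
      rw [abs_le] at x1 x2 ⊢
      constructor <;> linarith [x1.1, x1.2, x2.1, x2.2]
  have h7 : ∑ v ∈ S, g v ^ 2 ≤ (1 + 2 * δ * T) * ∑ w ∈ W, ∑ w' ∈ W, (if c2 w w' then (1 : ℝ) else 0) := by
    calc ∑ v ∈ S, g v ^ 2
        = ∑ v ∈ S, ∑ w ∈ W, ∑ w' ∈ W, (if c w v ∧ c w' v then (1 : ℝ) else 0) :=
          sum_congr rfl fun v _ => h3 v
      _ = ∑ w ∈ W, ∑ v ∈ S, ∑ w' ∈ W, (if c w v ∧ c w' v then (1 : ℝ) else 0) := sum_comm
      _ = ∑ w ∈ W, ∑ w' ∈ W, ∑ v ∈ S, (if c w v ∧ c w' v then (1 : ℝ) else 0) :=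
          sum_congr rfl fun w _ => sum_comm
      _ ≤ ∑ w ∈ W, ∑ w' ∈ W, (1 + 2 * δ * T) * (if c2 w w' then (1 : ℝ) else 0) :=
          sum_le_sum fun w hw => sum_le_sum fun w' hw' => h4 w hw w' hw'
      _ = _ := by rw [mul_sum]; exact sum_congr rfl fun w _ => by rw [mul_sum]
  have h8 : ∑ w ∈ W, ∑ w' ∈ W, (if c2 w w' then (1 : ℝ) else 0) =
      ∑ w ∈ Pc K ×ˢ Pc K, (qc S (2 * δ) (w.1.1 * w.2.2) (w.2.1 * w.1.2) : ℝ) := by
    unfold qc
    simp only [card_filter, sum_product, hW, hc2]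
    push_cast
    calc ∑ u ∈ S, ∑ p ∈ Pc K, ∑ u' ∈ S, ∑ p' ∈ Pc K, (if |u - u' + Real.log ((p.1 : ℝ) * p'.2) -
          Real.log ((p'.1 : ℝ) * p.2)| ≤ 2 * δ then (1 : ℝ) else 0)
        = ∑ p ∈ Pc K, ∑ u ∈ S, ∑ u' ∈ S, ∑ p' ∈ Pc K, (if |u - u' + Real.log ((p.1 : ℝ) * p'.2) -
          Real.log ((p'.1 : ℝ) * p.2)| ≤ 2 * δ then (1 : ℝ) else 0) := sum_comm
      _ = ∑ p ∈ Pc K, ∑ u ∈ S, ∑ p' ∈ Pc K, ∑ u' ∈ S, (if |u - u' + Real.log ((p.1 : ℝ) * p'.2) -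
          Real.log ((p'.1 : ℝ) * p.2)| ≤ 2 * δ then (1 : ℝ) else 0) :=
          sum_congr rfl fun p _ => sum_congr rfl fun u _ => sum_comm
      _ = ∑ p ∈ Pc K, ∑ p' ∈ Pc K, ∑ u ∈ S, ∑ u' ∈ S, (if |u - u' + Real.log ((p.1 : ℝ) * p'.2) -
          Real.log ((p'.1 : ℝ) * p.2)| ≤ 2 * δ then (1 : ℝ) else 0) :=
          sum_congr rfl fun p _ => sum_comm
  have h9 := sum_pairs_le S (2 * δ) D K hD
  have h10 : (0 : ℝ) ≤ 1 + 2 * δ * T := by positivity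
  rw [h1]
  refine h2.trans ?_
  apply mul_le_mul_of_nonneg_left _ (by positivity)
  refine h7.trans ?_
  apply mul_le_mul_of_nonneg_left _ h10
  rw [h8]
  exact h9

/-! ### assembly -/

theorem two_pow_clog_lt (m : ℕ) (hm : 1 ≤ m) : 2 ^ Nat.clog 2 m < 2 * m := by
  rcases Nat.lt_or_ge 1 m with h | h
  · have h1 := Nat.pow_pred_clog_lt_self (b := 2) (by norm_num) h
    have h2 : 0 < Nat.clog 2 m := Nat.clog_pos (by norm_num) h
    have h3 : 2 ^ Nat.clog 2 m = 2 * 2 ^ (Nat.clog 2 m).pred := by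
      rw [← pow_succ', ← Nat.succ_eq_add_one, Nat.succ_pred_eq_of_pos h2]
    omega
  · have : m = 1 := by omega
    subst this
    simp

theorem Zc_dyadic (S : Finset ℝ) (δ : ℝ) (H N : ℕ) :
    Zc S δ N ≤ Zc S δ H + ∑ j ∈ (range (Nat.clog 2 N + 1)).filter (fun j => H < 2 ^ j),
      2 / (2 : ℝ) ^ j * Qc S δ (2 ^ j) := by
  classical
  have h1 : Zc S δ N = ∑ p ∈ (Pc N).filter (fun p => max p.1 p.2 ≤ H), (qc S δ p.1 p.2 : ℝ) / (max p.1 p.2 : ℕ) +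
      ∑ p ∈ (Pc N).filter (fun p => ¬ max p.1 p.2 ≤ H), (qc S δ p.1 p.2 : ℝ) / (max p.1 p.2 : ℕ) := by
    rw [Zc, sum_filter_add_sum_filter_not]
  rw [h1]
  apply add_le_add
  · apply sum_le_sum_of_subset_of_nonneg
    · intro p hp
      rw [mem_filter, mem_Pc] at hp
      rw [mem_Pc]
      obtain ⟨⟨a1, a2, a3, a4, a5⟩, h⟩ := hp
      exact ⟨a1, (le_max_left _ _).trans h, a3, (le_max_right _ _).trans h, a5⟩
    · intro _ _ _; positivity
  · have hmap : ∀ p ∈ (Pc N).filter (fun p => ¬ max p.1 p.2 ≤ H), Nat.clog 2 (max p.1 p.2) ∈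
        (range (Nat.clog 2 N + 1)).filter (fun j => H < 2 ^ j) := by
      intro p hp
      rw [mem_filter, mem_Pc] at hp
      obtain ⟨⟨a1, a2, a3, a4, a5⟩, h⟩ := hp
      rw [mem_filter, mem_range, Nat.lt_add_one_iff]
      refine ⟨Nat.clog_mono_right 2 (max_le a2 a4), ?_⟩
      have := Nat.le_pow_clog (b := 2) (by norm_num) (max p.1 p.2)
      omega
    rw [← sum_fiberwise_of_maps_to hmap]
    apply sum_le_sum
    intro j _
    rw [Qc]
    push_cast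
    rw [mul_sum]
    have hterm : ∀ p ∈ ((Pc N).filter (fun p => ¬ max p.1 p.2 ≤ H)).filter
        (fun p => Nat.clog 2 (max p.1 p.2) = j),
        (qc S δ p.1 p.2 : ℝ) / max (p.1 : ℝ) (p.2 : ℝ) ≤ 2 / (2 : ℝ) ^ j * (qc S δ p.1 p.2 : ℝ) := by
      intro p hp
      rw [mem_filter, mem_filter, mem_Pc] at hp
      obtain ⟨⟨⟨a1, a2, a3, a4, a5⟩, h⟩, hj⟩ := hp
      have hm : 1 ≤ max p.1 p.2 := a1.trans (le_max_left _ _)
      have h2 := two_pow_clog_lt _ hm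
      rw [hj] at h2
      have h3 : (2 : ℝ) ^ j ≤ 2 * max (p.1 : ℝ) (p.2 : ℝ) := by
        rw [← Nat.cast_max]
        exact_mod_cast h2.le
      have hm' : (0 : ℝ) < max (p.1 : ℝ) (p.2 : ℝ) := by
        rw [← Nat.cast_max]
        exact_mod_cast hm
      have h4 : 1 / max (p.1 : ℝ) (p.2 : ℝ) ≤ 2 / (2 : ℝ) ^ j := by
        rw [div_le_div_iff₀ hm' (by positivity)]
        linarith
      calc (qc S δ p.1 p.2 : ℝ) / max (p.1 : ℝ) (p.2 : ℝ)
          = 1 / max (p.1 : ℝ) (p.2 : ℝ) * (qc S δ p.1 p.2 : ℝ) := by ring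
        _ ≤ _ := by gcongr
    refine (sum_le_sum hterm).trans ?_
    apply sum_le_sum_of_subset_of_nonneg
    · intro p hp
      rw [mem_filter, mem_filter, mem_Pc] at hp
      obtain ⟨⟨⟨a1, a2, a3, a4, a5⟩, h⟩, hj⟩ := hp
      rw [mem_Pc]
      have h2 := Nat.le_pow_clog (b := 2) (by norm_num) (max p.1 p.2)
      rw [hj] at h2
      exact ⟨a1, (le_max_left _ _).trans h2, a3, (le_max_right _ _).trans h2, a5⟩
    · intro _ _ _; positivity

theorem sum_two_pow (J : ℕ) : ∑ j ∈ range (J + 1), (2 : ℝ) ^ j ≤ 2 * 2 ^ J := by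
  have h := geom_sum_eq (show (2 : ℝ) ≠ 1 by norm_num) (J + 1)
  rw [h, pow_succ]
  have : (2 : ℝ) - 1 = 1 := by norm_num
  rw [this, div_one]
  linarith

theorem Zc_tail (S : Finset ℝ) (c T : ℝ) (hc : 1 ≤ c) (hT : 1 ≤ T) (H N : ℕ) (hN : 1 ≤ N)
    (hH : T < ((H : ℝ) + 1) ^ 2) :
    Zc S (c / T) N ≤ Zc S (c / T) H + 24 * c * (S.card : ℝ) ^ 2 * N / T := by
  have hT0 : 0 < T := by linarith
  refine (Zc_dyadic S (c / T) H N).trans ?_
  gcongr
  have h1 : ∀ j ∈ (range (Nat.clog 2 N + 1)).filter (fun j => H < 2 ^ j),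
      2 / (2 : ℝ) ^ j * Qc S (c / T) (2 ^ j) ≤ 6 * c * (S.card : ℝ) ^ 2 / T * 2 ^ j := by
    intro j hj
    have h2 := (mem_filter.mp hj).2
    have h3 := Qc_triv S (c / T) (by positivity) (2 ^ j)
    have h4 : ((H : ℝ) + 1) ≤ 2 ^ j := by exact_mod_cast h2
    have h5 : T ≤ ((2 : ℝ) ^ j) ^ 2 := hH.le.trans (by gcongr)
    have h6 : 1 + 2 * (c / T) * ((2 : ℝ) ^ j) ^ 2 ≤ 3 * c * ((2 : ℝ) ^ j) ^ 2 / T := by
      rw [le_div_iff₀ hT0]
      have : (1 + 2 * (c / T) * ((2 : ℝ) ^ j) ^ 2) * T = T + 2 * c * ((2 : ℝ) ^ j) ^ 2 := by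
        field_simp
      rw [this]
      nlinarith [sq_nonneg ((2 : ℝ) ^ j)]
    push_cast at h3
    calc 2 / (2 : ℝ) ^ j * Qc S (c / T) (2 ^ j)
        ≤ 2 / (2 : ℝ) ^ j * ((S.card : ℝ) ^ 2 * (1 + 2 * (c / T) * ((2 : ℝ) ^ j) ^ 2)) := by gcongr
      _ ≤ 2 / (2 : ℝ) ^ j * ((S.card : ℝ) ^ 2 * (3 * c * ((2 : ℝ) ^ j) ^ 2 / T)) := by gcongr
      _ = 6 * c * (S.card : ℝ) ^ 2 / T * 2 ^ j := by field_simp; ring
  calc ∑ j ∈ (range (Nat.clog 2 N + 1)).filter (fun j => H < 2 ^ j), 2 / (2 : ℝ) ^ j * Qc S (c / T) (2 ^ j)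
      ≤ ∑ j ∈ (range (Nat.clog 2 N + 1)).filter (fun j => H < 2 ^ j), 6 * c * (S.card : ℝ) ^ 2 / T * 2 ^ j :=
        sum_le_sum h1
    _ ≤ ∑ j ∈ range (Nat.clog 2 N + 1), 6 * c * (S.card : ℝ) ^ 2 / T * 2 ^ j :=
        sum_le_sum_of_subset_of_nonneg (filter_subset _ _) (fun _ _ _ => by positivity)
    _ = 6 * c * (S.card : ℝ) ^ 2 / T * ∑ j ∈ range (Nat.clog 2 N + 1), (2 : ℝ) ^ j := by rw [mul_sum]
    _ ≤ 6 * c * (S.card : ℝ) ^ 2 / T * (2 * 2 ^ Nat.clog 2 N) := by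
        gcongr
        exact sum_two_pow _
    _ ≤ 6 * c * (S.card : ℝ) ^ 2 / T * (2 * (2 * N)) := by
        have : (2 : ℝ) ^ Nat.clog 2 N ≤ 2 * N := by exact_mod_cast (two_pow_clog_lt N hN).le
        gcongr
    _ = 24 * c * (S.card : ℝ) ^ 2 * N / T := by ring

theorem sum_pow_le (F : Finset ℕ) (K : ℝ) (hK : 0 ≤ K) (h : ∀ j ∈ F, (2 : ℝ) ^ j ≤ K) :
    ∑ j ∈ F, (2 : ℝ) ^ j ≤ 2 * K := by
  rcases F.eq_empty_or_nonempty with h0 | h0
  · rw [h0, sum_empty]; linarith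
  · obtain ⟨m, hm, hmax⟩ := F.exists_max_image id h0
    calc ∑ j ∈ F, (2 : ℝ) ^ j ≤ ∑ j ∈ range (m + 1), (2 : ℝ) ^ j := by
          apply sum_le_sum_of_subset_of_nonneg
          · intro j hj
            rw [mem_range, Nat.lt_add_one_iff]
            exact hmax j hj
          · intro _ _ _; positivity
      _ ≤ 2 * 2 ^ m := sum_two_pow m
      _ ≤ 2 * K := by
          have := h m hm
          linarith

theorem sum_inv_pow_le (F : Finset ℕ) (K : ℝ) (hK : 0 < K) (h : ∀ j ∈ F, K ≤ (2 : ℝ) ^ j) :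
    ∑ j ∈ F, 1 / (2 : ℝ) ^ j ≤ 2 / K := by
  rcases F.eq_empty_or_nonempty with h0 | h0
  · rw [h0, sum_empty]; positivity
  · obtain ⟨m, hm, hmin⟩ := F.exists_min_image id h0
    have h1 : ∀ j ∈ F, 1 / (2 : ℝ) ^ j = 1 / 2 ^ m * (1 / 2) ^ (j - m) := by
      intro j hj
      have h2 : m ≤ j := hmin j hj
      obtain ⟨k, rfl⟩ := Nat.exists_eq_add_of_le h2
      rw [Nat.add_sub_cancel_left, pow_add, one_div_pow]
      field_simp
    have h3 : ∑ j ∈ F, (1 / 2 : ℝ) ^ (j - m) ≤ 2 := by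
      have hinj : Set.InjOn (fun j => j - m) (F : Set ℕ) := by
        intro a ha b hb hab
        have ha' : m ≤ a := hmin a ha
        have hb' : m ≤ b := hmin b hb
        simp only at hab
        omega
      have h4 : ∑ j ∈ F, (1 / 2 : ℝ) ^ (j - m) = ∑ k ∈ F.image (fun j => j - m), (1 / 2 : ℝ) ^ k := by
        rw [sum_image hinj]
      rw [h4]
      have h5 : Summable (fun k : ℕ => (1 / 2 : ℝ) ^ k) := summable_geometric_two
      calc _ ≤ ∑' k : ℕ, (1 / 2 : ℝ) ^ k := h5.sum_le_tsum _ (fun _ _ => by positivity)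
        _ = 2 := tsum_geometric_two
    rw [sum_congr rfl h1, ← mul_sum]
    calc 1 / (2 : ℝ) ^ m * ∑ j ∈ F, (1 / 2 : ℝ) ^ (j - m) ≤ 1 / (2 : ℝ) ^ m * 2 := by gcongr
      _ ≤ 1 / K * 2 := by
          have := h m hm
          gcongr
      _ = 2 / K := by ring

/-- the small scales -/
theorem small_scale (S : Finset ℝ) (c T D : ℝ) (hc : 1 ≤ c) (hT : 1 ≤ T) (hD0 : 1 ≤ D)
    (hS : ∀ u ∈ S, ∀ v ∈ S, u ≠ v → 1 / T ≤ |u - v|) (H j : ℕ)
    (hH : T < ((H : ℝ) + 1) ^ 2) (hj : ((2 : ℝ) ^ j) ^ 2 ≤ 4 * T)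
    (hD : ∀ m : ℕ, 1 ≤ m → (m : ℝ) ≤ 4 * T → (m.divisors.card : ℝ) ≤ D) :
    2 / (2 : ℝ) ^ j * Qc S (c / T) (2 ^ j) ≤ 8 * Real.sqrt c * D * Real.sqrt S.card *
      (Real.sqrt (Zc S (c / T) H) + 5 * Real.sqrt c * S.card * 2 ^ j / Real.sqrt T) := by
  have hT0 : 0 < T := by linarith
  set R : ℝ := (S.card : ℝ) with hR
  have hR0 : 0 ≤ R := by positivity
  set Z := Zc S (c / T) H with hZ
  have hZ0 : 0 ≤ Z := Zc_nonneg _ _ _
  have h1 := Qc_cauchy S T (c / T) D hT0 (by positivity) hS (2 ^ j) (by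
    intro m hm1 hm2
    apply hD m hm1
    refine le_trans ?_ hj
    exact_mod_cast hm2)
  have h2 : (Ec S (2 * (c / T)) ((2 ^ j) ^ 2) : ℝ) ≤ 5 * (((2 : ℝ) ^ j) ^ 2 * (Z + 24 * c * R ^ 2 * ((2 : ℝ) ^ j) ^ 2 / T)) := by
    have h3 : (Ec S (2 * (c / T)) ((2 ^ j) ^ 2) : ℝ) ≤ 5 * (Ec S (c / T) ((2 ^ j) ^ 2) : ℝ) := by
      exact_mod_cast Ec_two S (c / T) (by positivity) ((2 ^ j) ^ 2)
    have h4 := Ec_le S (c / T) ((2 ^ j) ^ 2)
    have h5 := Zc_tail S c T hc hT H ((2 ^ j) ^ 2) (Nat.one_le_pow _ _ (by positivity)) hH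
    push_cast at h4 h5
    refine h3.trans ?_
    have h6 : (Ec S (c / T) ((2 ^ j) ^ 2) : ℝ) ≤ ((2 : ℝ) ^ j) ^ 2 * (Z + 24 * c * R ^ 2 * ((2 : ℝ) ^ j) ^ 2 / T) :=
      h4.trans (by gcongr)
    linarith
  have h3 : 1 + 2 * (c / T) * T = 1 + 2 * c := by field_simp
  rw [h3] at h1
  have h4 : (Qc S (c / T) (2 ^ j) : ℝ) ^ 2 ≤ 15 * c * R * D ^ 2 * ((2 : ℝ) ^ j) ^ 2 *
      (Z + 24 * c * R ^ 2 * ((2 : ℝ) ^ j) ^ 2 / T) := by
    calc (Qc S (c / T) (2 ^ j) : ℝ) ^ 2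
        ≤ R * ((1 + 2 * c) * (D ^ 2 * Ec S (2 * (c / T)) ((2 ^ j) ^ 2))) := h1
      _ ≤ R * ((3 * c) * (D ^ 2 * (5 * (((2 : ℝ) ^ j) ^ 2 * (Z + 24 * c * R ^ 2 * ((2 : ℝ) ^ j) ^ 2 / T))))) := by
          gcongr
          linarith
      _ = _ := by ring
  apply le_of_sq_le_sq _ (by positivity)
  have e1 : (2 / (2 : ℝ) ^ j * (Qc S (c / T) (2 ^ j) : ℝ)) ^ 2 = 4 / ((2 : ℝ) ^ j) ^ 2 * (Qc S (c / T) (2 ^ j) : ℝ) ^ 2 := by
    rw [mul_pow, div_pow]; norm_num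
  have e2 : (8 * Real.sqrt c * D * Real.sqrt R *
      (Real.sqrt Z + 5 * Real.sqrt c * R * 2 ^ j / Real.sqrt T)) ^ 2 =
      64 * c * D ^ 2 * R * (Real.sqrt Z + 5 * Real.sqrt c * R * 2 ^ j / Real.sqrt T) ^ 2 := by
    rw [mul_pow, mul_pow, mul_pow, mul_pow, Real.sq_sqrt (by linarith), Real.sq_sqrt hR0]
    norm_num
  have e3 : Z + 25 * c * R ^ 2 * ((2 : ℝ) ^ j) ^ 2 / T ≤
      (Real.sqrt Z + 5 * Real.sqrt c * R * 2 ^ j / Real.sqrt T) ^ 2 := by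
    have e4 : (5 * Real.sqrt c * R * 2 ^ j / Real.sqrt T) ^ 2 = 25 * c * R ^ 2 * ((2 : ℝ) ^ j) ^ 2 / T := by
      rw [div_pow, mul_pow, mul_pow, mul_pow, Real.sq_sqrt (by linarith), Real.sq_sqrt hT0.le]
      norm_num
    have e5 : 0 ≤ Real.sqrt Z * (5 * Real.sqrt c * R * 2 ^ j / Real.sqrt T) := by positivity
    have e6 := Real.sq_sqrt hZ0
    nlinarith
  rw [e1, e2]
  calc 4 / ((2 : ℝ) ^ j) ^ 2 * (Qc S (c / T) (2 ^ j) : ℝ) ^ 2
      ≤ 4 / ((2 : ℝ) ^ j) ^ 2 * (15 * c * R * D ^ 2 * ((2 : ℝ) ^ j) ^ 2 *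
      (Z + 24 * c * R ^ 2 * ((2 : ℝ) ^ j) ^ 2 / T)) := by gcongr
    _ = 60 * c * D ^ 2 * R * (Z + 24 * c * R ^ 2 * ((2 : ℝ) ^ j) ^ 2 / T) := by field_simp; ring
    _ ≤ 64 * c * D ^ 2 * R * (Z + 25 * c * R ^ 2 * ((2 : ℝ) ^ j) ^ 2 / T) := by gcongr <;> norm_num
    _ ≤ _ := by gcongr

theorem clog_le (H : ℕ) (T : ℝ) (hT : 1 ≤ T) (hH1 : 1 ≤ H) (hH : (H : ℝ) ^ 2 ≤ T) :
    ((Nat.clog 2 H : ℕ) : ℝ) + 1 ≤ 2 + Real.log T ∧ ((2 : ℝ) ^ Nat.clog 2 H) ^ 2 ≤ 4 * T := by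
  have h1 : (2 : ℝ) ^ Nat.clog 2 H < 2 * H := by exact_mod_cast two_pow_clog_lt H hH1
  have h2 : ((2 : ℝ) ^ Nat.clog 2 H) ^ 2 ≤ 4 * T := by
    calc ((2 : ℝ) ^ Nat.clog 2 H) ^ 2 ≤ (2 * (H : ℝ)) ^ 2 := by gcongr
      _ = 4 * (H : ℝ) ^ 2 := by ring
      _ ≤ 4 * T := by linarith
  refine ⟨?_, h2⟩
  have h3 : Real.log (((2 : ℝ) ^ Nat.clog 2 H) ^ 2) ≤ Real.log (4 * T) :=
    Real.log_le_log (by positivity) h2
  rw [Real.log_pow, Real.log_pow, Real.log_mul (by norm_num) (by linarith)] at h3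
  have h4 : Real.log 4 = 2 * Real.log 2 := by
    rw [show (4 : ℝ) = 2 ^ 2 by norm_num, Real.log_pow]; norm_num
  rw [h4] at h3
  have h5 := Real.log_two_gt_d9
  have h6 : 0 ≤ Real.log T := Real.log_nonneg hT
  have h7 : (0 : ℝ) ≤ (Nat.clog 2 H : ℕ) := by positivity
  push_cast at h3
  nlinarith

/-- the bound for `Z` at height `√T` -/
theorem Zc_sqrt (S : Finset ℝ) (c T D : ℝ) (hc : 1 ≤ c) (hT : 1 ≤ T) (hD0 : 1 ≤ D)
    (hS : ∀ u ∈ S, ∀ v ∈ S, u ≠ v → 1 / T ≤ |u - v|) (H : ℕ) (hH1 : 1 ≤ H) (hH2 : (H : ℝ) ^ 2 ≤ T)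
    (hH : T < ((H : ℝ) + 1) ^ 2)
    (hD : ∀ m : ℕ, 1 ≤ m → (m : ℝ) ≤ 4 * T → (m.divisors.card : ℝ) ≤ D) :
    Zc S (c / T) H ≤ 64 * c * D ^ 2 * (2 + Real.log T) ^ 2 * S.card +
      232 * c * D * ((S.card : ℝ) ^ (7 / 4 : ℝ) * T ^ (-(1 / 4) : ℝ)) := by
  classical
  have hT0 : 0 < T := by linarith
  have hlog : 0 ≤ Real.log T := Real.log_nonneg hT
  rcases S.eq_empty_or_nonempty with h0 | hne
  · subst h0
    have : Zc ∅ (c / T) H = 0 := by
      unfold Zc qc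
      simp
    rw [this]
    positivity
  set R : ℝ := (S.card : ℝ) with hR
  have hR1 : 1 ≤ R := by
    rw [hR]
    exact_mod_cast hne.card_pos
  have hR0 : 0 < R := by linarith
  obtain ⟨hJ, hJ2⟩ := clog_le H T hT hH1 hH2
  set J := Nat.clog 2 H with hJdef
  set Z := Zc S (c / T) H with hZ
  have hZ0 : 0 ≤ Z := Zc_nonneg _ _ _
  set K1 : ℝ := (R * T) ^ (1 / 4 : ℝ) with hK1
  have hK0 : 0 < K1 := by positivity
  have h1 := Zc_dyadic S (c / T) 0 H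
  have h00 : Zc S (c / T) 0 = 0 := by
    unfold Zc
    have : Pc 0 = ∅ := by
      ext p; rw [mem_Pc]; simp; omega
    rw [this, sum_empty]
  rw [h00, zero_add, ← hJdef] at h1
  have h2 : Z ≤ ∑ j ∈ range (J + 1), 2 / (2 : ℝ) ^ j * Qc S (c / T) (2 ^ j) :=
    h1.trans (sum_le_sum_of_subset_of_nonneg (filter_subset _ _) (fun _ _ _ => by positivity))
  have hjT : ∀ j ∈ range (J + 1), ((2 : ℝ) ^ j) ^ 2 ≤ 4 * T := by
    intro j hj
    rw [mem_range, Nat.lt_add_one_iff] at hj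
    refine le_trans ?_ hJ2
    gcongr
    norm_num
  rw [← sum_filter_add_sum_filter_not (range (J + 1)) (fun j => (2 : ℝ) ^ j ≤ K1)] at h2
  have h3 : ∑ j ∈ (range (J + 1)).filter (fun j => (2 : ℝ) ^ j ≤ K1), 2 / (2 : ℝ) ^ j * Qc S (c / T) (2 ^ j) ≤
      8 * Real.sqrt c * D * Real.sqrt R * ((J + 1) * Real.sqrt Z) +
      8 * Real.sqrt c * D * Real.sqrt R * (5 * Real.sqrt c * R / Real.sqrt T * (2 * K1)) := by
    calc _ ≤ ∑ j ∈ (range (J + 1)).filter (fun j => (2 : ℝ) ^ j ≤ K1),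
          8 * Real.sqrt c * D * Real.sqrt R * (Real.sqrt Z + 5 * Real.sqrt c * R * 2 ^ j / Real.sqrt T) := by
          apply sum_le_sum
          intro j hj
          exact small_scale S c T D hc hT hD0 hS H j hH (hjT j (mem_filter.mp hj).1) hD
      _ = 8 * Real.sqrt c * D * Real.sqrt R * (((range (J + 1)).filter (fun j => (2 : ℝ) ^ j ≤ K1)).card * Real.sqrt Z) +
          8 * Real.sqrt c * D * Real.sqrt R * (5 * Real.sqrt c * R / Real.sqrt T *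
            ∑ j ∈ (range (J + 1)).filter (fun j => (2 : ℝ) ^ j ≤ K1), (2 : ℝ) ^ j) := by
          rw [← mul_sum, sum_add_distrib, sum_const, nsmul_eq_mul, mul_sum, mul_add]
          congr 2
          apply sum_congr rfl
          intro j _
          ring
      _ ≤ _ := by
          have e1 : (((range (J + 1)).filter (fun j => (2 : ℝ) ^ j ≤ K1)).card : ℝ) ≤ (J : ℝ) + 1 := by
            have := card_filter_le (range (J + 1)) (fun j => (2 : ℝ) ^ j ≤ K1)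
            rw [card_range] at this
            exact_mod_cast this
          have e2 := sum_pow_le ((range (J + 1)).filter (fun j => (2 : ℝ) ^ j ≤ K1)) K1 hK0.le
            (fun j hj => (mem_filter.mp hj).2)
          gcongr
  have h4 : ∑ j ∈ (range (J + 1)).filter (fun j => ¬ (2 : ℝ) ^ j ≤ K1), 2 / (2 : ℝ) ^ j * Qc S (c / T) (2 ^ j) ≤
      18 * c * R ^ 2 * (2 / K1) := by
    calc _ ≤ ∑ j ∈ (range (J + 1)).filter (fun j => ¬ (2 : ℝ) ^ j ≤ K1), 18 * c * R ^ 2 * (1 / (2 : ℝ) ^ j) := by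
          apply sum_le_sum
          intro j hj
          have e1 := hjT j (mem_filter.mp hj).1
          have e2 := Qc_triv S (c / T) (by positivity) (2 ^ j)
          push_cast at e2
          have e3 : 1 + 2 * (c / T) * ((2 : ℝ) ^ j) ^ 2 ≤ 9 * c := by
            have : 2 * (c / T) * ((2 : ℝ) ^ j) ^ 2 ≤ 2 * (c / T) * (4 * T) := by gcongr
            have e4 : 2 * (c / T) * (4 * T) = 8 * c := by field_simp; norm_num
            linarith
          calc 2 / (2 : ℝ) ^ j * Qc S (c / T) (2 ^ j)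
              ≤ 2 / (2 : ℝ) ^ j * (R ^ 2 * (1 + 2 * (c / T) * ((2 : ℝ) ^ j) ^ 2)) := by gcongr
            _ ≤ 2 / (2 : ℝ) ^ j * (R ^ 2 * (9 * c)) := by gcongr
            _ = _ := by ring
      _ = 18 * c * R ^ 2 * ∑ j ∈ (range (J + 1)).filter (fun j => ¬ (2 : ℝ) ^ j ≤ K1), 1 / (2 : ℝ) ^ j := by
          rw [mul_sum]
      _ ≤ _ := by
          have e1 := sum_inv_pow_le ((range (J + 1)).filter (fun j => ¬ (2 : ℝ) ^ j ≤ K1)) K1 hK0
            (fun j hj => (not_le.mp (mem_filter.mp hj).2).le)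
          gcongr
  set Y : ℝ := R ^ (7 / 4 : ℝ) * T ^ (-(1 / 4) : ℝ) with hY
  have hY0 : 0 < Y := by positivity
  have e5 : Real.sqrt R * (R / Real.sqrt T * K1) = Y := by
    rw [hY, hK1, Real.sqrt_eq_rpow, Real.sqrt_eq_rpow, Real.mul_rpow hR0.le hT0.le]
    have a1 : R ^ (7 / 4 : ℝ) = R ^ (1 / 2 : ℝ) * R * R ^ (1 / 4 : ℝ) := by
      rw [← Real.rpow_add_one hR0.ne', ← Real.rpow_add hR0]; norm_num
    have a2 : T ^ (-(1 / 4) : ℝ) = T ^ (1 / 4 : ℝ) / T ^ (1 / 2 : ℝ) := by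
      rw [← Real.rpow_sub hT0]; norm_num
    rw [a1, a2]
    ring
  have e6 : R ^ 2 / K1 = Y := by
    rw [hY, hK1, Real.mul_rpow hR0.le hT0.le]
    have a1 : R ^ (7 / 4 : ℝ) = R ^ 2 / R ^ (1 / 4 : ℝ) := by
      rw [← Real.rpow_natCast, ← Real.rpow_sub hR0]; norm_num
    have a2 : T ^ (-(1 / 4) : ℝ) = 1 / T ^ (1 / 4 : ℝ) := by
      rw [Real.rpow_neg hT0.le]
      exact (one_div _).symm
    rw [a1, a2, div_mul_div_comm, mul_one]
  have hsc : Real.sqrt c * Real.sqrt c = c := Real.mul_self_sqrt (by linarith)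
  have h5 : Z ≤ 8 * Real.sqrt c * D * (2 + Real.log T) * (Real.sqrt R * Real.sqrt Z) + 116 * c * D * Y := by
    have b1 : 8 * Real.sqrt c * D * Real.sqrt R * ((J + 1) * Real.sqrt Z) ≤
        8 * Real.sqrt c * D * (2 + Real.log T) * (Real.sqrt R * Real.sqrt Z) := by
      calc 8 * Real.sqrt c * D * Real.sqrt R * ((J + 1) * Real.sqrt Z)
          = 8 * Real.sqrt c * D * (J + 1) * (Real.sqrt R * Real.sqrt Z) := by ring
        _ ≤ _ := by gcongr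
    have b2 : 8 * Real.sqrt c * D * Real.sqrt R * (5 * Real.sqrt c * R / Real.sqrt T * (2 * K1)) = 80 * c * D * Y := by
      calc _ = 80 * (Real.sqrt c * Real.sqrt c) * D * (Real.sqrt R * (R / Real.sqrt T * K1)) := by ring
        _ = _ := by rw [hsc, e5]
    have b3 : 18 * c * R ^ 2 * (2 / K1) = 36 * c * Y := by
      calc _ = 36 * c * (R ^ 2 / K1) := by ring
        _ = _ := by rw [e6]
    rw [b2] at h3
    rw [b3] at h4
    have b4 : 36 * c * Y ≤ 36 * c * D * Y := by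
      have : 36 * c * Y * 1 ≤ 36 * c * Y * D := by gcongr
      linarith
    linarith
  have hsR : Real.sqrt R * Real.sqrt R = R := Real.mul_self_sqrt hR0.le
  have hsZ : Real.sqrt Z * Real.sqrt Z = Z := Real.mul_self_sqrt hZ0
  set A : ℝ := 8 * Real.sqrt c * D * (2 + Real.log T) with hA
  have hA2 : A ^ 2 = 64 * c * D ^ 2 * (2 + Real.log T) ^ 2 := by
    rw [hA]
    calc _ = 64 * (Real.sqrt c * Real.sqrt c) * D ^ 2 * (2 + Real.log T) ^ 2 := by ring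
      _ = _ := by rw [hsc]
  have h6 : A * (Real.sqrt R * Real.sqrt Z) ≤ A ^ 2 * R / 2 + Z / 2 := by
    have := sq_nonneg (A * Real.sqrt R - Real.sqrt Z)
    have e7 : (A * Real.sqrt R - Real.sqrt Z) ^ 2 = A ^ 2 * (Real.sqrt R * Real.sqrt R) -
        2 * (A * (Real.sqrt R * Real.sqrt Z)) + Real.sqrt Z * Real.sqrt Z := by ring
    rw [e7, hsR, hsZ] at this
    linarith
  rw [← hA2]
  linarith

/-- **Collision lemma.** -/
theorem coll (S : Finset ℝ) (c T D : ℝ) (hc : 1 ≤ c) (hT : 1 ≤ T)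
    (hS : ∀ u ∈ S, ∀ v ∈ S, u ≠ v → 1 / T ≤ |u - v|)
    (hD : ∀ m : ℕ, 1 ≤ m → (m : ℝ) ≤ 4 * T → (m.divisors.card : ℝ) ≤ D) (N : ℕ) :
    (Ec S (c / T) N : ℝ) ≤ 64 * c * D ^ 2 * (2 + Real.log T) ^ 2 * (S.card * N) +
      232 * c * D * ((S.card : ℝ) ^ (7 / 4 : ℝ) * T ^ (-(1 / 4) : ℝ) * N) +
      24 * c * ((S.card : ℝ) ^ 2 * (N : ℝ) ^ 2 / T) := by
  have hT0 : 0 < T := by linarith
  have hlog : 0 ≤ Real.log T := Real.log_nonneg hT
  have hD0 : 1 ≤ D := by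
    have := hD 1 le_rfl (by push_cast; linarith)
    simpa using this
  rcases Nat.eq_zero_or_pos N with h0 | hN
  · subst h0
    have : Ec S (c / T) 0 = 0 := by unfold Ec; simp
    rw [this]
    simp
  set H : ℕ := ⌊Real.sqrt T⌋₊ with hHdef
  have hs1 : 1 ≤ Real.sqrt T := Real.one_le_sqrt.mpr hT
  have hH1 : 1 ≤ H := Nat.le_floor (by exact_mod_cast hs1)
  have hH2 : (H : ℝ) ^ 2 ≤ T := by
    have := Nat.floor_le (Real.sqrt_nonneg T)
    calc (H : ℝ) ^ 2 ≤ (Real.sqrt T) ^ 2 := by gcongr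
      _ = T := Real.sq_sqrt hT0.le
  have hH : T < ((H : ℝ) + 1) ^ 2 := by
    have := Nat.lt_floor_add_one (Real.sqrt T)
    calc T = (Real.sqrt T) ^ 2 := (Real.sq_sqrt hT0.le).symm
      _ < ((H : ℝ) + 1) ^ 2 := by gcongr
  have h1 := Ec_le S (c / T) N
  have h2 := Zc_tail S c T hc hT H N hN hH
  have h3 := Zc_sqrt S c T D hc hT hD0 hS H hH1 hH2 hH hD
  have h4 : (Ec S (c / T) N : ℝ) ≤ N * (64 * c * D ^ 2 * (2 + Real.log T) ^ 2 * S.card +
      232 * c * D * ((S.card : ℝ) ^ (7 / 4 : ℝ) * T ^ (-(1 / 4) : ℝ)) +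
      24 * c * (S.card : ℝ) ^ 2 * N / T) := by
    refine h1.trans ?_
    gcongr
    linarith
  refine h4.trans (le_of_eq ?_)
  ring

end

end Pool.Agent.Work.MP_a8fbd7_nt.OX
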