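import Mathlib
import Pool.Agent.Work.MP_a8fbd7_nt.OX.Coll
import Pool.Agent.Work.MP_56b8f5_nt.UC.Defs
import Pool.Agent.Work.MP_cb106b_nt.Ct.DivB

/-!
MP_a8fbd7_nt, block OX: the collision lemma, integral form.
-/

set_option autoImplicit false

namespace Pool.Agent.Work.MP_a8fbd7_nt.OX

open Finset MeasureTheory Complex
open Pool.Agent.Work.MP_56b8f5_nt.UC (Dp)

noncomputable section

/-- `e^{iμt} exp(-((t-T0)/T)²)` as the exponential of a quadratic polynomial -/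
def gE (T0 T μ t : ℝ) : ℂ :=
  cexp (-(1 / (T : ℂ) ^ 2) * (t : ℂ) ^ 2 + (2 * T0 / (T : ℂ) ^ 2 + I * μ) * t + -((T0 : ℂ) ^ 2 / (T : ℂ) ^ 2))

theorem gE_re (T : ℝ) (hT : 0 < T) : (-(1 / (T : ℂ) ^ 2)).re < 0 := by
  have : (-(1 / (T : ℂ) ^ 2)) = ((-(1 / T ^ 2) : ℝ) : ℂ) := by push_cast; ring
  rw [this, ofReal_re]
  have : 0 < 1 / T ^ 2 := by positivity
  linarith

theorem gE_integrable (T0 T μ : ℝ) (hT : 0 < T) : Integrable (gE T0 T μ) :=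
  integrable_cexp_quadratic' (gE_re T hT) _ _

theorem gE_eq (T0 T μ t : ℝ) (hT : 0 < T) :
    gE T0 T μ t = cexp (I * μ * t) * ((Real.exp (-((t - T0) / T) ^ 2) : ℝ) : ℂ) := by
  unfold gE
  rw [ofReal_exp, ← Complex.exp_add]
  congr 1
  have : (T : ℂ) ≠ 0 := by exact_mod_cast hT.ne'
  push_cast
  field_simp
  ring

theorem gE_norm (T0 T μ : ℝ) (hT : 0 < T) :
    ‖∫ t, gE T0 T μ t‖ = Real.sqrt Real.pi * T * Real.exp (-(T * μ) ^ 2 / 4) := by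
  have h := integral_cexp_quadratic (gE_re T hT) (2 * T0 / (T : ℂ) ^ 2 + I * μ) (-((T0 : ℂ) ^ 2 / (T : ℂ) ^ 2))
  unfold gE
  rw [h, norm_mul]
  have hT' : (T : ℂ) ≠ 0 := by exact_mod_cast hT.ne'
  have e1 : ((Real.pi : ℝ) : ℂ) / - -(1 / (T : ℂ) ^ 2) = ((Real.pi * T ^ 2 : ℝ) : ℂ) := by
    push_cast
    field_simp
  have e2 : -((T0 : ℂ) ^ 2 / (T : ℂ) ^ 2) - (2 * T0 / (T : ℂ) ^ 2 + I * μ) ^ 2 / (4 * -(1 / (T : ℂ) ^ 2)) =
      ((-(T * μ) ^ 2 / 4 : ℝ) : ℂ) + ((μ * T0 : ℝ) : ℂ) * I := by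
    have h2 : (2 * (T0 : ℂ) / (T : ℂ) ^ 2 + I * μ) ^ 2 =
        4 * (T0 : ℂ) ^ 2 / (T : ℂ) ^ 4 + 4 * T0 * μ / (T : ℂ) ^ 2 * I - μ ^ 2 := by
      have : (2 * (T0 : ℂ) / (T : ℂ) ^ 2 + I * μ) ^ 2 =
        4 * (T0 : ℂ) ^ 2 / (T : ℂ) ^ 4 + 4 * T0 * μ / (T : ℂ) ^ 2 * I + I ^ 2 * μ ^ 2 := by
        field_simp
        ring
      rw [this, I_sq]
      ring
    rw [h2]
    push_cast
    field_simp
    ring
  rw [e1, e2, Complex.norm_exp]
  have e3 : (((-(T * μ) ^ 2 / 4 : ℝ) : ℂ) + ((μ * T0 : ℝ) : ℂ) * I).re = -(T * μ) ^ 2 / 4 := by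
    rw [add_re, ofReal_re, mul_re, ofReal_re, ofReal_im, I_re]
    ring
  rw [e3]
  congr 1
  have h3 : (0 : ℝ) < Real.pi * T ^ 2 := by positivity
  rw [Complex.norm_cpow_eq_rpow_re_of_pos h3]
  have : ((1 : ℂ) / 2).re = 1 / 2 := by norm_num
  rw [this, ← Real.sqrt_eq_rpow, Real.sqrt_mul Real.pi_pos.le, Real.sqrt_sq hT.le]

/-- geometric weight on the integers -/
theorem sum_int_pow (D : Finset ℤ) (r : ℝ) (hr0 : 0 ≤ r) (hr : r < 1) :
    ∑ d ∈ D, r ^ d.natAbs ≤ 2 / (1 - r) := by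
  classical
  have hs : Summable (fun k : ℕ => r ^ k) := summable_geometric_of_lt_one hr0 hr
  have h1 : ∀ F : Finset ℤ, Set.InjOn Int.natAbs (F : Set ℤ) → ∑ d ∈ F, r ^ d.natAbs ≤ 1 / (1 - r) := by
    intro F hF
    calc ∑ d ∈ F, r ^ d.natAbs = ∑ k ∈ F.image Int.natAbs, r ^ k := by rw [sum_image hF]
      _ ≤ ∑' k : ℕ, r ^ k := hs.sum_le_tsum _ (fun _ _ => by positivity)
      _ = 1 / (1 - r) := by rw [tsum_geometric_of_lt_one hr0 hr, one_div]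
  rw [← sum_filter_add_sum_filter_not D (fun d => 0 ≤ d)]
  have h2 := h1 (D.filter (fun d => 0 ≤ d)) (by
    intro a ha b hb hab
    have ha' := (mem_filter.mp (mem_coe.mp ha)).2
    have hb' := (mem_filter.mp (mem_coe.mp hb)).2
    omega)
  have h3 := h1 (D.filter (fun d => ¬ 0 ≤ d)) (by
    intro a ha b hb hab
    have ha' := (mem_filter.mp (mem_coe.mp ha)).2
    have hb' := (mem_filter.mp (mem_coe.mp hb)).2
    omega)
  have h4 : 2 / (1 - r) = 1 / (1 - r) + 1 / (1 - r) := by ring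
  rw [h4]
  exact add_le_add h2 h3

theorem gauss_cells {ι : Type*} (I : Finset ι) (lam : ι → ℝ) (T : ℝ) (hT : 0 < T) :
    ∑ p ∈ I ×ˢ I, Real.exp (-(T * (lam p.1 - lam p.2)) ^ 2 / 4) ≤
      (Real.exp (3 / 4) * (16 / 3)) * ((I ×ˢ I).filter (fun p => |lam p.1 - lam p.2| ≤ 1 / T)).card := by
  classical
  set k : ι → ℤ := fun i => ⌊lam i / (1 / T)⌋ with hk
  set r : ℝ := Real.exp (-(1 / 2)) with hr
  have hr0 : 0 < r := Real.exp_pos _
  have hr1 : r ≤ 5 / 8 := by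
    have h1 : (8 / 5 : ℝ) ≤ Real.exp (1 / 2) := by
      have := Real.quadratic_le_exp_of_nonneg (show (0 : ℝ) ≤ 1 / 2 by norm_num)
      linarith
    rw [hr, Real.exp_neg]
    rw [inv_le_comm₀ (Real.exp_pos _) (by norm_num)]
    linarith
  have hterm : ∀ p ∈ I ×ˢ I, Real.exp (-(T * (lam p.1 - lam p.2)) ^ 2 / 4) ≤
      Real.exp (3 / 4) * r ^ (k p.2 - k p.1).natAbs := by
    intro p _
    have a1 := Int.floor_le (lam p.1 / (1 / T))
    have a2 := Int.lt_floor_add_one (lam p.1 / (1 / T))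
    have b1 := Int.floor_le (lam p.2 / (1 / T))
    have b2 := Int.lt_floor_add_one (lam p.2 / (1 / T))
    have e1 : ∀ x : ℝ, x / (1 / T) = T * x := fun x => by field_simp
    rw [e1] at a1 a2 b1 b2
    set y := T * (lam p.1 - lam p.2) with hy
    have hy' : y = T * lam p.1 - T * lam p.2 := by rw [hy]; ring
    have h1 : (((k p.2 - k p.1).natAbs : ℕ) : ℝ) ≤ |y| + 1 := by
      have h2 : (((k p.2 - k p.1).natAbs : ℕ) : ℝ) = |((k p.2 - k p.1 : ℤ) : ℝ)| := by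
        rw [← Int.cast_abs, Int.abs_eq_natAbs]; rfl
      rw [h2]
      push_cast
      have a1' : ((k p.1 : ℤ) : ℝ) ≤ T * lam p.1 := by rw [hk]; simp only; rw [e1]; exact a1
      have a2' : T * lam p.1 < ((k p.1 : ℤ) : ℝ) + 1 := by rw [hk]; simp only; rw [e1]; exact a2
      have b1' : ((k p.2 : ℤ) : ℝ) ≤ T * lam p.2 := by rw [hk]; simp only; rw [e1]; exact b1
      have b2' : T * lam p.2 < ((k p.2 : ℤ) : ℝ) + 1 := by rw [hk]; simp only; rw [e1]; exact b2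
      rw [abs_le]
      have := neg_abs_le y
      have := le_abs_self y
      constructor <;> linarith
    rw [hr, ← Real.exp_nat_mul, ← Real.exp_add]
    apply Real.exp_le_exp.mpr
    have h3 : y ^ 2 = |y| ^ 2 := (sq_abs y).symm
    rw [neg_div, h3]
    nlinarith [sq_nonneg (|y| - 1)]
  have hmap : ∀ p ∈ I ×ˢ I, k p.2 - k p.1 ∈ (I ×ˢ I).image (fun p => k p.2 - k p.1) :=
    fun p hp => mem_image_of_mem _ hp
  calc ∑ p ∈ I ×ˢ I, Real.exp (-(T * (lam p.1 - lam p.2)) ^ 2 / 4)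
      ≤ ∑ p ∈ I ×ˢ I, Real.exp (3 / 4) * r ^ (k p.2 - k p.1).natAbs := sum_le_sum hterm
    _ = ∑ d ∈ (I ×ˢ I).image (fun p => k p.2 - k p.1),
          ∑ p ∈ (I ×ˢ I).filter (fun p => k p.2 - k p.1 = d), Real.exp (3 / 4) * r ^ (k p.2 - k p.1).natAbs :=
        (sum_fiberwise_of_maps_to hmap _).symm
    _ = ∑ d ∈ (I ×ˢ I).image (fun p => k p.2 - k p.1), Real.exp (3 / 4) * r ^ d.natAbs * Nd I k d := by
        apply sum_congr rfl
        intro d _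
        have h1 : ∀ p ∈ (I ×ˢ I).filter (fun p => k p.2 - k p.1 = d),
            Real.exp (3 / 4) * r ^ (k p.2 - k p.1).natAbs = Real.exp (3 / 4) * r ^ d.natAbs := by
          intro p hp
          rw [(mem_filter.mp hp).2]
        rw [sum_congr rfl h1, sum_const, nsmul_eq_mul, mul_comm]
        congr 2
        unfold Nd
        congr 1
        apply filter_congr
        intro p _
        constructor <;> intro h <;> omega
    _ ≤ ∑ d ∈ (I ×ˢ I).image (fun p => k p.2 - k p.1), Real.exp (3 / 4) * r ^ d.natAbs * Nd I k 0 := by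
        apply sum_le_sum
        intro d _
        have : (Nd I k d : ℝ) ≤ Nd I k 0 := by exact_mod_cast Nd_le I k d
        gcongr
    _ = Real.exp (3 / 4) * (∑ d ∈ (I ×ˢ I).image (fun p => k p.2 - k p.1), r ^ d.natAbs) * Nd I k 0 := by
        rw [mul_sum, sum_mul]
    _ ≤ Real.exp (3 / 4) * (16 / 3) * Nd I k 0 := by
        have h1 := sum_int_pow ((I ×ˢ I).image (fun p => k p.2 - k p.1)) r hr0.le (by linarith)
        have h2 : 2 / (1 - r) ≤ 16 / 3 := by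
          rw [div_le_div_iff₀ (by linarith) (by norm_num)]
          linarith
        gcongr
        exact h1.trans h2
    _ ≤ _ := by
        have h1 : (Nd I k 0 : ℝ) ≤ ((I ×ˢ I).filter (fun p => |lam p.1 - lam p.2| ≤ 1 / T)).card := by
          exact_mod_cast Nd_zero_le I lam (1 / T) (by positivity)
        gcongr

theorem num_const : Real.exp 1 * (Real.sqrt Real.pi * (Real.exp (3 / 4) * (16 / 3))) ≤ 64 := by
  have h1 : Real.exp 1 * Real.exp (3 / 4) = Real.exp (7 / 4) := by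
    rw [← Real.exp_add]; norm_num
  have h2 : Real.exp (7 / 4) ≤ 6 := by
    have h3 : Real.exp (7 / 4) ^ 4 ≤ 6 ^ 4 := by
      have h4 : Real.exp (7 / 4) ^ 4 = Real.exp 1 ^ 7 := by
        rw [← Real.exp_nat_mul, ← Real.exp_nat_mul]; norm_num
      rw [h4]
      have h5 := Real.exp_one_lt_d9
      calc Real.exp 1 ^ 7 ≤ (2.7182818286 : ℝ) ^ 7 := by gcongr
        _ ≤ 6 ^ 4 := by norm_num
    exact le_of_pow_le_pow_left₀ (by norm_num) (by norm_num) h3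
  have h6 : Real.sqrt Real.pi ≤ 9 / 5 := by
    rw [Real.sqrt_le_left (by norm_num)]
    have := Real.pi_lt_d2
    norm_num
    linarith
  calc Real.exp 1 * (Real.sqrt Real.pi * (Real.exp (3 / 4) * (16 / 3)))
      = (Real.exp 1 * Real.exp (3 / 4)) * Real.sqrt Real.pi * (16 / 3) := by ring
    _ = Real.exp (7 / 4) * Real.sqrt Real.pi * (16 / 3) := by rw [h1]
    _ ≤ 6 * (9 / 5) * (16 / 3) := by gcongr
    _ ≤ 64 := by norm_num

/-- mean value with Gaussian weight -/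
theorem gauss_mv {ι : Type*} (J : Finset ι) (lam : ι → ℝ) (c : ι → ℂ) (hc : ∀ i ∈ J, ‖c i‖ ≤ 1)
    (T0 T : ℝ) (hT : 0 < T) :
    ∫ t in T0..(T0 + T), ‖∑ i ∈ J, c i * cexp (I * lam i * t)‖ ^ 2 ≤
      64 * T * ((J ×ˢ J).filter (fun p => |lam p.1 - lam p.2| ≤ 1 / T)).card := by
  classical
  set P : ℝ → ℂ := fun t => ∑ i ∈ J, c i * cexp (I * lam i * t) with hP
  set G : ℝ → ℝ := fun t => Real.exp (-((t - T0) / T) ^ 2) with hG
  have hPc : Continuous P := by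
    rw [hP]
    fun_prop
  have hid : ∀ t : ℝ, ((‖P t‖ ^ 2 * G t : ℝ) : ℂ) =
      ∑ p ∈ J ×ˢ J, (c p.1 * (starRingEnd ℂ) (c p.2)) * gE T0 T (lam p.1 - lam p.2) t := by
    intro t
    have h1 : ((‖P t‖ ^ 2 : ℝ) : ℂ) = P t * (starRingEnd ℂ) (P t) := by
      rw [Complex.mul_conj, Complex.normSq_eq_norm_sq]
    rw [ofReal_mul, h1]
    simp only [hP]
    rw [map_sum, sum_mul_sum, ← sum_product', sum_mul]
    apply sum_congr rfl
    intro p _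
    rw [gE_eq T0 T _ t hT, map_mul, ← Complex.exp_conj]
    have h2 : (starRingEnd ℂ) (I * lam p.2 * t) = -(I * lam p.2 * t) := by
      rw [map_mul, map_mul, conj_I, conj_ofReal, conj_ofReal]; ring
    rw [h2]
    have h3 : cexp (I * (lam p.1 - lam p.2 : ℝ) * t) = cexp (I * lam p.1 * t) * cexp (-(I * lam p.2 * t)) := by
      rw [← Complex.exp_add]; congr 1; push_cast; ring
    rw [h3, hG]
    ring
  have hint : Integrable (fun t => ((‖P t‖ ^ 2 * G t : ℝ) : ℂ)) := by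
    rw [show (fun t => ((‖P t‖ ^ 2 * G t : ℝ) : ℂ)) = fun t =>
      ∑ p ∈ J ×ˢ J, (c p.1 * (starRingEnd ℂ) (c p.2)) * gE T0 T (lam p.1 - lam p.2) t from funext hid]
    exact integrable_finsetSum _ fun p _ => (gE_integrable T0 T _ hT).const_mul _
  have hintR : Integrable (fun t => ‖P t‖ ^ 2 * G t) := by
    have := hint.re
    simpa only [RCLike.re_to_complex, ofReal_re] using this
  have h1 : ((∫ t, ‖P t‖ ^ 2 * G t : ℝ) : ℂ) =
      ∑ p ∈ J ×ˢ J, (c p.1 * (starRingEnd ℂ) (c p.2)) * ∫ t, gE T0 T (lam p.1 - lam p.2) t := by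
    rw [← integral_complex_ofReal]
    rw [show (fun t => ((‖P t‖ ^ 2 * G t : ℝ) : ℂ)) = fun t =>
      ∑ p ∈ J ×ˢ J, (c p.1 * (starRingEnd ℂ) (c p.2)) * gE T0 T (lam p.1 - lam p.2) t from funext hid]
    rw [integral_finsetSum _ fun p _ => (gE_integrable T0 T _ hT).const_mul _]
    apply sum_congr rfl
    intro p _
    rw [integral_const_mul]
  have h2 : ∫ t, ‖P t‖ ^ 2 * G t ≤ Real.sqrt Real.pi * T *
      ∑ p ∈ J ×ˢ J, Real.exp (-(T * (lam p.1 - lam p.2)) ^ 2 / 4) := by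
    have h3 : ∫ t, ‖P t‖ ^ 2 * G t ≤ ‖((∫ t, ‖P t‖ ^ 2 * G t : ℝ) : ℂ)‖ := by
      rw [norm_real]; exact le_abs_self _
    refine h3.trans ?_
    rw [h1, mul_sum]
    refine (norm_sum_le _ _).trans ?_
    apply sum_le_sum
    intro p hp
    rw [mem_product] at hp
    rw [norm_mul, norm_mul, RCLike.norm_conj, gE_norm _ _ _ hT]
    have a1 := hc p.1 hp.1
    have a2 := hc p.2 hp.2
    have a3 : ‖c p.1‖ * ‖c p.2‖ ≤ 1 * 1 := by gcongr
    calc ‖c p.1‖ * ‖c p.2‖ * (Real.sqrt Real.pi * T * Real.exp (-(T * (lam p.1 - lam p.2)) ^ 2 / 4))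
        ≤ (1 * 1) * (Real.sqrt Real.pi * T * Real.exp (-(T * (lam p.1 - lam p.2)) ^ 2 / 4)) := by gcongr
      _ = _ := by ring
  have h4 : ∫ t in T0..(T0 + T), ‖P t‖ ^ 2 ≤ Real.exp 1 * ∫ t, ‖P t‖ ^ 2 * G t := by
    rw [intervalIntegral.integral_of_le (by linarith), ← integral_const_mul]
    calc ∫ t in Set.Ioc T0 (T0 + T), ‖P t‖ ^ 2
        ≤ ∫ t in Set.Ioc T0 (T0 + T), Real.exp 1 * (‖P t‖ ^ 2 * G t) := by
          apply setIntegral_mono_on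
          · exact (hPc.norm.pow 2).integrableOn_Ioc
          · exact (hintR.const_mul _).integrableOn
          · exact measurableSet_Ioc
          · intro t ht
            have hx0 : 0 ≤ (t - T0) / T := div_nonneg (by linarith [ht.1]) hT.le
            have hx1 : (t - T0) / T ≤ 1 := by
              rw [div_le_one hT]; linarith [ht.2]
            have h5 : 1 ≤ Real.exp 1 * G t := by
              rw [hG]
              simp only
              rw [← Real.exp_add]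
              apply Real.one_le_exp
              nlinarith
            calc ‖P t‖ ^ 2 = ‖P t‖ ^ 2 * 1 := by ring
              _ ≤ ‖P t‖ ^ 2 * (Real.exp 1 * G t) := by gcongr
              _ = _ := by ring
      _ ≤ ∫ t, Real.exp 1 * (‖P t‖ ^ 2 * G t) := by
          apply setIntegral_le_integral (hintR.const_mul _)
          filter_upwards with t
          positivity
  have h5 := gauss_cells J lam T hT
  calc ∫ t in T0..(T0 + T), ‖P t‖ ^ 2 ≤ Real.exp 1 * ∫ t, ‖P t‖ ^ 2 * G t := h4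
    _ ≤ Real.exp 1 * (Real.sqrt Real.pi * T * ((Real.exp (3 / 4) * (16 / 3)) *
        ((J ×ˢ J).filter (fun p => |lam p.1 - lam p.2| ≤ 1 / T)).card)) := by
        gcongr
        exact h2.trans (by gcongr)
    _ = (Real.exp 1 * (Real.sqrt Real.pi * (Real.exp (3 / 4) * (16 / 3)))) * T *
        ((J ×ˢ J).filter (fun p => |lam p.1 - lam p.2| ≤ 1 / T)).card := by ring
    _ ≤ _ := by
        have := num_const
        gcongr

/-- `Ec` as an autocorrelation, with `u - log n` -/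
theorem Ec_auto' (S : Finset ℝ) (δ : ℝ) (N : ℕ) :
    Ec S δ N = (((S ×ˢ Icc 1 N) ×ˢ (S ×ˢ Icc 1 N)).filter
      (fun p : (ℝ × ℕ) × (ℝ × ℕ) => |(p.1.1 - Real.log p.1.2) - (p.2.1 - Real.log p.2.2)| ≤ δ)).card := by
  unfold Ec qc
  simp only [card_filter, sum_product]
  calc ∑ m ∈ Icc 1 N, ∑ n ∈ Icc 1 N, ∑ u ∈ S, ∑ v ∈ S,
        (if |u - v + Real.log m - Real.log n| ≤ δ then 1 else 0)
      = ∑ n ∈ Icc 1 N, ∑ m ∈ Icc 1 N, ∑ u ∈ S, ∑ v ∈ S,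
        (if |u - v + Real.log m - Real.log n| ≤ δ then 1 else 0) := sum_comm
    _ = ∑ n ∈ Icc 1 N, ∑ u ∈ S, ∑ m ∈ Icc 1 N, ∑ v ∈ S,
        (if |u - v + Real.log m - Real.log n| ≤ δ then 1 else 0) :=
          sum_congr rfl fun n _ => sum_comm
    _ = ∑ u ∈ S, ∑ n ∈ Icc 1 N, ∑ m ∈ Icc 1 N, ∑ v ∈ S,
        (if |u - v + Real.log m - Real.log n| ≤ δ then 1 else 0) := sum_comm
    _ = ∑ u ∈ S, ∑ n ∈ Icc 1 N, ∑ v ∈ S, ∑ m ∈ Icc 1 N,
        (if |(u - Real.log n) - (v - Real.log m)| ≤ δ then 1 else 0) := by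
          apply sum_congr rfl; intro u _
          apply sum_congr rfl; intro n _
          rw [sum_comm]
          apply sum_congr rfl; intro v _
          apply sum_congr rfl; intro m _
          have : u - v + Real.log m - Real.log n = (u - Real.log n) - (v - Real.log m) := by ring
          rw [this]

/-- **Twisted mean value, in terms of the collisions.** -/
theorem coll_int (S : Finset ℝ) (b : ℝ → ℂ) (N : ℕ) (a : ℕ → ℂ) (A : ℝ)
    (ha : ∀ n ∈ Icc 1 N, ‖a n‖ ≤ A) (hb : ∀ u ∈ S, ‖b u‖ ≤ 1) (T0 T : ℝ) (hT : 0 < T) :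
    ∫ t in T0..(T0 + T), ‖Dp N a t‖ ^ 2 * ‖∑ u ∈ S, b u * cexp (I * u * t)‖ ^ 2 ≤
      64 * A ^ 2 * T * Ec S (1 / T) N := by
  classical
  rcases Nat.eq_zero_or_pos N with h0 | hN
  · subst h0
    have : ∀ t, Dp 0 a t = 0 := fun t => by unfold Dp; simp
    have h2 : ∀ t : ℝ, ‖Dp 0 a t‖ ^ 2 * ‖∑ u ∈ S, b u * cexp (I * u * t)‖ ^ 2 = 0 := by
      intro t
      rw [this t, norm_zero, zero_pow two_ne_zero, zero_mul]
    rw [intervalIntegral.integral_congr (fun t _ => h2 t), intervalIntegral.integral_zero]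
    positivity
  have hA0 : 0 ≤ A := (norm_nonneg _).trans (ha 1 (mem_Icc.mpr ⟨le_rfl, hN⟩))
  have hprod : ∀ t : ℝ, Dp N a t * ∑ u ∈ S, b u * cexp (I * u * t) =
      ∑ p ∈ S ×ˢ Icc 1 N, (b p.1 * a p.2) * cexp (I * (p.1 - Real.log p.2 : ℝ) * t) := by
    intro t
    unfold Dp
    rw [mul_comm, sum_mul_sum, ← sum_product']
    apply sum_congr rfl
    intro p hp
    rw [mem_product, mem_Icc] at hp
    have hn : (p.2 : ℂ) ≠ 0 := by
      have : p.2 ≠ 0 := by omega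
      exact_mod_cast this
    rw [cpow_def_of_ne_zero hn]
    have h1 : cexp (I * (p.1 - Real.log p.2 : ℝ) * t) = cexp (I * p.1 * t) * cexp (Complex.log p.2 * -(t * I)) := by
      rw [← Complex.exp_add, ← natCast_log]
      congr 1
      push_cast
      ring
    rw [h1]
    ring
  rcases hA0.eq_or_lt with h0 | hApos
  · have hz : ∀ t : ℝ, Dp N a t = 0 := by
      intro t
      unfold Dp
      apply sum_eq_zero
      intro n hn
      have := ha n hn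
      rw [← h0] at this
      rw [norm_le_zero_iff.mp this, zero_mul]
    have h2 : ∀ t : ℝ, ‖Dp N a t‖ ^ 2 * ‖∑ u ∈ S, b u * cexp (I * u * t)‖ ^ 2 = 0 := by
      intro t
      rw [hz t, norm_zero, zero_pow two_ne_zero, zero_mul]
    rw [intervalIntegral.integral_congr (fun t _ => h2 t), intervalIntegral.integral_zero]
    positivity
  set P : ℝ → ℂ := fun t => ∑ p ∈ S ×ˢ Icc 1 N, ((b p.1 * a p.2) / A) * cexp (I * (p.1 - Real.log p.2 : ℝ) * t) with hP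
  have hA' : (A : ℂ) ≠ 0 := by exact_mod_cast hApos.ne'
  have hPt : ∀ t : ℝ, ‖Dp N a t‖ ^ 2 * ‖∑ u ∈ S, b u * cexp (I * u * t)‖ ^ 2 = A ^ 2 * ‖P t‖ ^ 2 := by
    intro t
    rw [← mul_pow, ← norm_mul, hprod t]
    have : ∑ p ∈ S ×ˢ Icc 1 N, (b p.1 * a p.2) * cexp (I * (p.1 - Real.log p.2 : ℝ) * t) = A * P t := by
      simp only [hP]
      rw [mul_sum]
      apply sum_congr rfl
      intro p _
      field_simp
    rw [this, norm_mul, norm_real, Real.norm_of_nonneg hA0, mul_pow]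
  have h1 := gauss_mv (S ×ˢ Icc 1 N) (fun p => p.1 - Real.log p.2) (fun p => (b p.1 * a p.2) / A) (by
    intro p hp
    rw [mem_product] at hp
    rw [norm_div, norm_mul, norm_real, Real.norm_of_nonneg hA0, div_le_one hApos]
    have := ha p.2 hp.2
    have := hb p.1 hp.1
    calc ‖b p.1‖ * ‖a p.2‖ ≤ 1 * A := by gcongr
      _ = A := one_mul A) T0 T hT
  rw [← Ec_auto'] at h1
  simp only [hPt]
  rw [intervalIntegral.integral_const_mul]
  calc A ^ 2 * ∫ t in T0..(T0 + T), ‖P t‖ ^ 2 ≤ A ^ 2 * (64 * T * Ec S (1 / T) N) := by gcongr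
    _ = _ := by ring

/-- **Heath-Brown's mean value, explicit.** -/
theorem coll_int_bound (S : Finset ℝ) (b : ℝ → ℂ) (N : ℕ) (a : ℕ → ℂ) (A : ℝ)
    (ha : ∀ n ∈ Icc 1 N, ‖a n‖ ≤ A) (hb : ∀ u ∈ S, ‖b u‖ ≤ 1) (T0 T D : ℝ) (hT : 1 ≤ T)
    (hS : ∀ u ∈ S, ∀ v ∈ S, u ≠ v → 1 / T ≤ |u - v|)
    (hD : ∀ m : ℕ, 1 ≤ m → (m : ℝ) ≤ 4 * T → (m.divisors.card : ℝ) ≤ D) :
    ∫ t in T0..(T0 + T), ‖Dp N a t‖ ^ 2 * ‖∑ u ∈ S, b u * cexp (I * u * t)‖ ^ 2 ≤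
      64 * A ^ 2 * T * (64 * D ^ 2 * (2 + Real.log T) ^ 2 * (S.card * N) +
      232 * D * ((S.card : ℝ) ^ (7 / 4 : ℝ) * T ^ (-(1 / 4) : ℝ) * N) +
      24 * ((S.card : ℝ) ^ 2 * (N : ℝ) ^ 2 / T)) := by
  have h1 := coll_int S b N a A ha hb T0 T (by linarith)
  have h2 := coll S 1 T D le_rfl hT hS hD N
  refine h1.trans ?_
  gcongr
  refine h2.trans (le_of_eq ?_)
  ring

/-- **Heath-Brown's mean value, `T^ε` form.** -/
theorem coll_int_eps (ε : ℝ) (hε : 0 < ε) : ∃ C : ℝ, 1 ≤ C ∧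
    ∀ (S : Finset ℝ) (b : ℝ → ℂ) (N : ℕ) (a : ℕ → ℂ) (A T0 T : ℝ), 1 ≤ T →
      (∀ n ∈ Icc 1 N, ‖a n‖ ≤ A) → (∀ u ∈ S, ‖b u‖ ≤ 1) →
      (∀ u ∈ S, ∀ v ∈ S, u ≠ v → 1 / T ≤ |u - v|) →
      ∫ t in T0..(T0 + T), ‖Dp N a t‖ ^ 2 * ‖∑ u ∈ S, b u * cexp (I * u * t)‖ ^ 2 ≤
        C * A ^ 2 * T ^ ε * (S.card * N * T + (S.card : ℝ) ^ (7 / 4 : ℝ) * N * T ^ (3 / 4 : ℝ) +
          (S.card : ℝ) ^ 2 * (N : ℝ) ^ 2) := by
  obtain ⟨C0, hC0, hdiv⟩ := Pool.Agent.Work.MP_cb106b_nt.Ct.divisor_bound (ε / 4) (by positivity)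
  set D0 : ℝ := C0 * 4 ^ (ε / 4) with hD0
  have h4 : (1 : ℝ) ≤ 4 ^ (ε / 4) := Real.one_le_rpow (by norm_num) (by positivity)
  have hD01 : 1 ≤ D0 := one_le_mul_of_one_le_of_one_le hC0 h4
  set L : ℝ := 2 + 4 / ε with hL
  have hL1 : 1 ≤ L := by
    have : 0 < 4 / ε := by positivity
    linarith
  refine ⟨64 * (64 * D0 ^ 2 * L ^ 2 + 232 * D0 + 24), by nlinarith [sq_nonneg D0, sq_nonneg L, mul_nonneg (sq_nonneg D0) (sq_nonneg L)], ?_⟩
  intro S b N a A T0 T hT ha hb hS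
  have hT0 : 0 < T := by linarith
  have hTe : 1 ≤ T ^ (ε / 4) := Real.one_le_rpow hT (by positivity)
  have h1 := coll_int_bound S b N a A ha hb T0 T (D0 * T ^ (ε / 4)) hT hS (by
    intro m hm1 hm2
    refine (hdiv m hm1).trans ?_
    calc C0 * (m : ℝ) ^ (ε / 4) ≤ C0 * (4 * T) ^ (ε / 4) := by gcongr
      _ = D0 * T ^ (ε / 4) := by rw [Real.mul_rpow (by norm_num) hT0.le, hD0]; ring)
  refine h1.trans ?_
  have hlog : 2 + Real.log T ≤ L * T ^ (ε / 4) := by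
    have h5 := Real.log_le_rpow_div hT0.le (show 0 < ε / 4 by positivity)
    have h6 : T ^ (ε / 4) / (ε / 4) = 4 / ε * T ^ (ε / 4) := by field_simp
    rw [h6] at h5
    calc 2 + Real.log T ≤ 2 * T ^ (ε / 4) + 4 / ε * T ^ (ε / 4) := by linarith
      _ = L * T ^ (ε / 4) := by rw [hL]; ring
  have hlog0 : 0 ≤ 2 + Real.log T := by
    have := Real.log_nonneg hT
    linarith
  set X1 : ℝ := (S.card : ℝ) * N with hX1
  set X2 : ℝ := (S.card : ℝ) ^ (7 / 4 : ℝ) * N with hX2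
  set X3 : ℝ := (S.card : ℝ) ^ 2 * (N : ℝ) ^ 2 with hX3
  have hX1' : 0 ≤ X1 := by positivity
  have hX2' : 0 ≤ X2 := by positivity
  have hX3' : 0 ≤ X3 := by positivity
  have hTT : T ^ (ε / 4) * T ^ (ε / 4) * (T ^ (ε / 4) * T ^ (ε / 4)) = T ^ ε := by
    rw [← Real.rpow_add hT0, ← Real.rpow_add hT0]; congr 1; ring
  have hT1 : T ^ (ε / 4) ≤ T ^ ε := Real.rpow_le_rpow_of_exponent_le hT (by linarith)
  have hT2 : 1 ≤ T ^ ε := Real.one_le_rpow hT hε.le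
  have hT34 : T * T ^ (-(1 / 4) : ℝ) = T ^ (3 / 4 : ℝ) := by
    rw [← Real.rpow_one_add' hT0.le (by norm_num)]; norm_num
  have c1 : T * (64 * (D0 * T ^ (ε / 4)) ^ 2 * (2 + Real.log T) ^ 2 * X1) ≤
      64 * D0 ^ 2 * L ^ 2 * T ^ ε * (X1 * T) := by
    calc T * (64 * (D0 * T ^ (ε / 4)) ^ 2 * (2 + Real.log T) ^ 2 * X1)
        ≤ T * (64 * (D0 * T ^ (ε / 4)) ^ 2 * (L * T ^ (ε / 4)) ^ 2 * X1) := by gcongr
      _ = 64 * D0 ^ 2 * L ^ 2 * (T ^ (ε / 4) * T ^ (ε / 4) * (T ^ (ε / 4) * T ^ (ε / 4))) * (X1 * T) := by ring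
      _ = _ := by rw [hTT]
  have c2 : T * (232 * (D0 * T ^ (ε / 4)) * ((S.card : ℝ) ^ (7 / 4 : ℝ) * T ^ (-(1 / 4) : ℝ) * N)) ≤
      232 * D0 * T ^ ε * (X2 * T ^ (3 / 4 : ℝ)) := by
    calc T * (232 * (D0 * T ^ (ε / 4)) * ((S.card : ℝ) ^ (7 / 4 : ℝ) * T ^ (-(1 / 4) : ℝ) * N))
        = 232 * D0 * T ^ (ε / 4) * (X2 * (T * T ^ (-(1 / 4) : ℝ))) := by rw [hX2]; ring
      _ = 232 * D0 * T ^ (ε / 4) * (X2 * T ^ (3 / 4 : ℝ)) := by rw [hT34]
      _ ≤ _ := by gcongr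
  have c3 : T * (24 * (X3 / T)) ≤ 24 * T ^ ε * X3 := by
    have : T * (24 * (X3 / T)) = 24 * 1 * X3 := by field_simp
    rw [this]
    gcongr
  set Y1 : ℝ := X1 * T with hY1
  set Y2 : ℝ := X2 * T ^ (3 / 4 : ℝ) with hY2
  have hY1' : 0 ≤ Y1 := by positivity
  have hY2' : 0 ≤ Y2 := by positivity
  calc 64 * A ^ 2 * T * (64 * (D0 * T ^ (ε / 4)) ^ 2 * (2 + Real.log T) ^ 2 * X1 +
      232 * (D0 * T ^ (ε / 4)) * ((S.card : ℝ) ^ (7 / 4 : ℝ) * T ^ (-(1 / 4) : ℝ) * N) +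
      24 * (X3 / T))
      = 64 * A ^ 2 * (T * (64 * (D0 * T ^ (ε / 4)) ^ 2 * (2 + Real.log T) ^ 2 * X1) +
      T * (232 * (D0 * T ^ (ε / 4)) * ((S.card : ℝ) ^ (7 / 4 : ℝ) * T ^ (-(1 / 4) : ℝ) * N)) +
      T * (24 * (X3 / T))) := by ring
    _ ≤ 64 * A ^ 2 * (64 * D0 ^ 2 * L ^ 2 * T ^ ε * Y1 + 232 * D0 * T ^ ε * Y2 + 24 * T ^ ε * X3) := by
        gcongr
    _ ≤ 64 * A ^ 2 * ((64 * D0 ^ 2 * L ^ 2 + 232 * D0 + 24) * T ^ ε * Y1 +
        (64 * D0 ^ 2 * L ^ 2 + 232 * D0 + 24) * T ^ ε * Y2 + (64 * D0 ^ 2 * L ^ 2 + 232 * D0 + 24) * T ^ ε * X3) := by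
        have p1 : 0 ≤ 64 * D0 ^ 2 * L ^ 2 := by positivity
        gcongr <;> linarith
    _ = 64 * (64 * D0 ^ 2 * L ^ 2 + 232 * D0 + 24) * A ^ 2 * T ^ ε * (Y1 + Y2 + X3) := by ring

/-- the case `R ≤ T^{1/3}` -/
theorem coll_int_third (ε : ℝ) (hε : 0 < ε) : ∃ C : ℝ, 1 ≤ C ∧
    ∀ (S : Finset ℝ) (b : ℝ → ℂ) (N : ℕ) (a : ℕ → ℂ) (A T0 T : ℝ), 1 ≤ T →
      (∀ n ∈ Icc 1 N, ‖a n‖ ≤ A) → (∀ u ∈ S, ‖b u‖ ≤ 1) →
      (∀ u ∈ S, ∀ v ∈ S, u ≠ v → 1 / T ≤ |u - v|) → (S.card : ℝ) ≤ T ^ (1 / 3 : ℝ) →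
      ∫ t in T0..(T0 + T), ‖Dp N a t‖ ^ 2 * ‖∑ u ∈ S, b u * cexp (I * u * t)‖ ^ 2 ≤
        C * A ^ 2 * T ^ ε * (S.card * N * T + (S.card : ℝ) ^ 2 * (N : ℝ) ^ 2) := by
  obtain ⟨C, hC, h⟩ := coll_int_eps ε hε
  refine ⟨2 * C, by linarith, ?_⟩
  intro S b N a A T0 T hT ha hb hS hR
  have hT0 : 0 < T := by linarith
  refine (h S b N a A T0 T hT ha hb hS).trans ?_
  have h1 : (S.card : ℝ) ^ (7 / 4 : ℝ) * N * T ^ (3 / 4 : ℝ) ≤ S.card * N * T := by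
    rcases Nat.eq_zero_or_pos S.card with h0 | hpos
    · rw [h0]
      simp
    have hpos' : (0 : ℝ) < S.card := by exact_mod_cast hpos
    have e1 : (S.card : ℝ) ^ (7 / 4 : ℝ) = S.card * (S.card : ℝ) ^ (3 / 4 : ℝ) := by
      rw [← Real.rpow_one_add' hpos'.le (by norm_num)]; norm_num
    have e2 : (S.card : ℝ) ^ (3 / 4 : ℝ) ≤ T ^ (1 / 4 : ℝ) := by
      calc (S.card : ℝ) ^ (3 / 4 : ℝ) ≤ (T ^ (1 / 3 : ℝ)) ^ (3 / 4 : ℝ) := by gcongr
        _ = T ^ (1 / 4 : ℝ) := by rw [← Real.rpow_mul hT0.le]; norm_num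
    have e3 : T ^ (1 / 4 : ℝ) * T ^ (3 / 4 : ℝ) = T := by
      rw [← Real.rpow_add hT0]; norm_num
    rw [e1]
    calc (S.card : ℝ) * (S.card : ℝ) ^ (3 / 4 : ℝ) * N * T ^ (3 / 4 : ℝ)
        ≤ (S.card : ℝ) * T ^ (1 / 4 : ℝ) * N * T ^ (3 / 4 : ℝ) := by gcongr
      _ = S.card * N * (T ^ (1 / 4 : ℝ) * T ^ (3 / 4 : ℝ)) := by ring
      _ = _ := by rw [e3]
  have h2 : (0 : ℝ) ≤ (S.card : ℝ) ^ 2 * (N : ℝ) ^ 2 := by positivity
  calc C * A ^ 2 * T ^ ε * (S.card * N * T + (S.card : ℝ) ^ (7 / 4 : ℝ) * N * T ^ (3 / 4 : ℝ) +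
          (S.card : ℝ) ^ 2 * (N : ℝ) ^ 2)
      ≤ C * A ^ 2 * T ^ ε * (S.card * N * T + S.card * N * T + 2 * ((S.card : ℝ) ^ 2 * (N : ℝ) ^ 2)) := by
        apply mul_le_mul_of_nonneg_left _ (by positivity)
        linarith
    _ = _ := by ring

end

end Pool.Agent.Work.MP_a8fbd7_nt.OX
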